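import Mathlib

/-!
Counterexample to MP_27fa52_an (completeness of right translates in weighted L^1 on the half-line).
This file: the definitions and the exact Props of the pieces.
-/

set_option autoImplicit false

namespace Pool.Agent.W2helper26.TR

open MeasureTheory Set Filter Topology

/-- A weight with `α_+ = α_- = 0`. -/
def IsWeight (φ : ℝ → ℝ) : Prop :=
  Measurable φ ∧ (∀ t, 1 ≤ φ t) ∧ (∀ t τ, φ (t + τ) ≤ φ t * φ τ) ∧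
  Tendsto (fun t => Real.log (φ t) / t) atTop (𝓝 0) ∧
  Tendsto (fun t => Real.log (φ t) / t) atBot (𝓝 0)

/-- `f ∈ L^1_φ(ℝ_+)`. -/
def InL1 (φ : ℝ → ℝ) (f : ℝ → ℂ) : Prop :=
  AEStronglyMeasurable f volume ∧ (∀ t, t < 0 → f t = 0) ∧
  IntegrableOn (fun t => ‖f t‖ * φ t) (Set.Ioi 0)

/-- `g ∈ L^∞_φ(ℝ_+)`. -/
def InLinf (φ : ℝ → ℝ) (g : ℝ → ℂ) : Prop :=
  AEStronglyMeasurable g (volume.restrict (Set.Ioi 0)) ∧
  ∃ K : ℝ, ∀ᵐ t ∂(volume.restrict (Set.Ioi (0:ℝ))), ‖g t‖ ≤ K * φ t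

/-- The transform `∫_0^∞ f(t) e^{-itz} dt`. -/
noncomputable def hat (f : ℝ → ℂ) (z : ℂ) : ℂ :=
  ∫ t in Set.Ioi (0:ℝ), f t * Complex.exp (-(Complex.I * (t:ℂ) * z))

/-- The two conditions on the transform of `f`. -/
def TransformConditions (f : ℝ → ℂ) : Prop :=
  (∀ z : ℂ, z.im ≤ 0 → hat f z ≠ 0) ∧
  Filter.limsup (fun y : ℝ => ((Real.log ‖hat f (y * Complex.I)‖ / |y| : ℝ) : EReal)) atBot = 0

/-- Completeness of the right translates of `f`. -/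
def TranslatesComplete (φ : ℝ → ℝ) (f : ℝ → ℂ) : Prop :=
  ∀ g : ℝ → ℂ, InLinf φ g →
  (∀ τ : ℝ, 0 < τ → ∫ t in Set.Ioi (0:ℝ), f t * g (t + τ) = 0) →
  ∀ᵐ t ∂(volume.restrict (Set.Ioi (0:ℝ))), g t = 0

/-- The goal: Q1 is false. -/
def FinalStm : Prop :=
  ∃ (φ : ℝ → ℝ) (f : ℝ → ℂ), IsWeight φ ∧ InL1 φ f ∧ TransformConditions f ∧
    ¬ TranslatesComplete φ f

/-- The `j`-th bump of `f`: `2^{-(j+2)} e^{-X (t - L)}` for `t > L`. -/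
noncomputable def bump (j : ℕ) (L : ℕ) (X : ℝ) (t : ℝ) : ℝ :=
  if (L:ℝ) < t then (1 / 2 : ℝ) ^ (j + 2) * Real.exp (-(X * (t - L))) else 0

/-- The partial function `f_k(t) = e^{-t} + ∑_{j<k} bump_j(t)` (used for `t > 0`). -/
noncomputable def fpart (L : ℕ → ℕ) (X : ℕ → ℝ) (k : ℕ) (t : ℝ) : ℝ :=
  Real.exp (-t) + ∑ j ∈ Finset.range k, bump j (L j) (X j) t

/-- **Output of the recursion** (piece S, helper26). -/
def OutStm : Prop :=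
  ∃ (L : ℕ → ℕ) (X c η : ℕ → ℝ) (g : ℕ → ℝ → ℂ) (C : ℝ),
    (∀ k, 1 ≤ L k) ∧ (∀ k, 64 ≤ X k) ∧ (∀ k, 0 ≤ c k ∧ c k ≤ 1 / 2) ∧
    (∀ j k, j < k → (L j : ℝ) * c k ≤ Real.log (X j)) ∧
    Tendsto (fun k => Real.log (X k) / L k) atTop (𝓝 0) ∧
    (∀ k, 0 ≤ η k) ∧ Summable η ∧ ∑' k, η k ≤ 1 / 4 ∧
    (∀ k, Continuous (g k)) ∧ (∀ τ, 0 ≤ τ → 1 ≤ ‖g 0 τ‖) ∧
    (∀ k τ, ‖g (k + 1) τ - g k τ‖ ≤ η k * Real.exp (c k * max τ 0)) ∧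
    (∀ k, 1 ≤ k → ∀ n : ℕ, 1 ≤ n → ∀ τ : ℝ,
      ‖g (k + 1) (n * L k + τ)‖ ≤ η k * X k ^ n * Real.exp (c k * max τ 0)) ∧
    (∀ τ, ‖g 1 τ‖ ≤ C * Real.exp (c 1 * max τ 0)) ∧
    (∀ k, 1 ≤ k → ∀ τ : ℝ, 0 < τ →
      ∫ t in Set.Ioi (0:ℝ), (fpart L X k t : ℂ) * g k (t + τ) = 0)

/-- **Piece W** (weight and limit): `theorem piece : WStm`.

Paper proof.  Given the data of `OutStm` put `A j = log (X j)`.
*Weight.*  `p t = inf { ∑ n_j A_j + r / 2 : n : ℕ →₀ ℕ, r ≥ 0, t ≤ ∑ n_j L_j + r }`,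
`φ = exp ∘ p`.  `p ≥ 0`, `p t = 0` for `t ≤ 0`, `p` is monotone (so measurable) and subadditive (add two
representations).  For `t > 0`, `p t ≤ (t / L_k + 1) A_k` for every `k` (take `n_k = ⌈t/L_k⌉`), and
`A_k / L_k → 0`, so `p t / t → 0` at `+∞`.
*f.*  `f t = e^{-t} + ∑' j, bump j (L j) (X j) t` for `t ≥ 0`, `0` for `t < 0` (the series is dominated by
`2^{-(j+2)}`).  `∫ |f| φ < ∞`: `p (L_j + s) ≤ A_j + s/2`, hence `∫ bump_j φ ≤ 2^{-(j+2)} X_j/(X_j - 1/2)`;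
`p t ≤ t/2` for the first term.
*Transform.*  With `λ = -iz`, `Re λ = Im z ≤ 0`:
`hat f z = 1/(1-λ) + ∑ 2^{-(j+2)} e^{L_j λ}/(X_j - λ) = (1/(1-λ)) (1 + ∑ 2^{-(j+2)} e^{L_j λ} (1-λ)/(X_j-λ))`;
`|1-λ| ≤ |X_j-λ|` and `|e^{L_j λ}| ≤ 1`, so the last factor is in the disc of radius `1/2` around `1`.
So `hat f z ≠ 0` and `log |hat f (iy)| / |y| → 0` as `y → -∞`.
*g.*  `g = lim g_k` (locally uniform by the bound on `g_{k+1} - g_k`).  `|g - g_k| ≤ ∑_{m≥k} η_m e^{c_m τ⁺}`.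
Claim: for `K ≥ 1` and every representation `(n, r)` of `t` with `n` supported on `j < K`,
`|g_K t| ≤ (C + ∑_{1≤m<K} η_m) exp(∑ n_j A_j + r/2)`.  `K = 1`: `∑ n_j A_j + r/2 ≥ c_1 t⁺`.
Step: if `n_K = 0` use `|g_{K+1} - g_K| ≤ η_K e^{c_K t⁺}` and `c_K t⁺ ≤ ∑ n_j A_j + r/2`
(because `L_j c_K ≤ A_j` for `j < K` and `c_K ≤ 1/2`); if `n_K = n ≥ 1` use the second bound with
`τ = t - n L_K`, which is covered by the rest of the representation.  Hence `|g t| ≤ (|C| + ∑ η) φ t`.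
*Orthogonality.*  For `τ > 0`: `∫ f_k(t) g_k(t+τ) dt = 0`;
`|∫ f_k (g - g_k)(·+τ)| ≤ ∑_{m≥k} η_m e^{c_m τ} ∫ f_k(t) e^{c_m t} dt ≤ 4 e^{τ/2} ∑_{m ≥ k} η_m → 0` because
`∫ f_k e^{c_m t} = 1/(1-c_m) + ∑_{j<k} 2^{-(j+2)} e^{L_j c_m}/(X_j - c_m)`, `L_j c_m ≤ A_j` for `j < k ≤ m`;
and `∫ (f - f_k) |g(·+τ)| → 0` since `∫ |f| φ < ∞`.  So `∫ f g(·+τ) = 0`.
*Nonzero.*  `|g - g_0| ≤ (1/4) e^{τ/2} < 1 ≤ |g_0|` on `[0,1]`. -/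
def WStm : Prop := OutStm → FinalStm

/-- **Piece R** (Runge): `theorem piece : RungeStm`.

Paper proof.  Let `S` be the union of the five compact sets (three sides `Im = a`, `Im = v`, `Re = c`, the
part `a ≤ Im ≤ u` of the side `Re = 0`, and the box `N = [x1,x2] × [y1,y2]`).  `V` = closure of the
polynomials in `C(S, ℂ)` (Mathlib `polynomialFunctions S`, topological closure).  For `μ ∉ S` let
`r_μ(λ) = 1/(μ-λ)`.  If `r_μ ∈ V` and `|μ'-μ| < dist(μ,S)` then `r_μ' ∈ V` (geometric series), so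
`{μ ∉ S : r_μ ∈ V}` and its complement in `Sᶜ` are open; for `|μ|` large `r_μ ∈ V`.  The union of
`∂N'` (`N'` a slightly larger closed box), a vertical segment from the top side of `N'` up to
`Im = (u+v)/2` and the ray to the left from there (through the gap `Re = 0`, `u < Im < v`) is connected and
misses `S`, so `r_μ ∈ V` for `μ ∈ ∂N'`.  `(1/2πi) ∮_{∂N'} r_μ dμ ∈ V` is `1` on `N` and `0` on the
other four sets. -/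
def RungeStm : Prop :=
  ∀ a u v c x1 x2 y1 y2 δ : ℝ, 0 < x1 → x1 < x2 → x2 < c → a < y1 → y1 < y2 → y2 < u → u < v →
    0 < δ →
    ∃ E : ℂ → ℂ, Differentiable ℂ E ∧
      (∀ z : ℂ, 0 ≤ z.re → z.re ≤ c → z.im = a → ‖E z‖ ≤ δ) ∧
      (∀ z : ℂ, 0 ≤ z.re → z.re ≤ c → z.im = v → ‖E z‖ ≤ δ) ∧
      (∀ z : ℂ, z.re = c → a ≤ z.im → z.im ≤ v → ‖E z‖ ≤ δ) ∧
      (∀ z : ℂ, z.re = 0 → a ≤ z.im → z.im ≤ u → ‖E z‖ ≤ δ) ∧
      (∀ z : ℂ, x1 ≤ z.re → z.re ≤ x2 → y1 ≤ z.im → z.im ≤ y2 → ‖E z - 1‖ ≤ δ)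

end Pool.Agent.W2helper26.TR
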