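import Pool.Agent.W2helper26.TR.OneStep

/-! `RungeStm → StepStm`. -/

set_option autoImplicit false

open Complex Filter Topology Set MeasureTheory

namespace Pool.Agent.W2helper26.TR

section
variable {k : ℕ} {s : Sta} {β δ Λ : ℝ} {L : ℕ} {E : ℂ → ℂ}

/-- the next state -/
noncomputable def nxt (k : ℕ) (s : Sta) (β : ℝ) (L : ℕ) (E : ℂ → ℂ) : Sta where
  M := Mn s.M (Pf (qk k) (64 * Real.exp (L * β))) L
  G := Gn s.b (ak k) s.G s.M (Pf (qk k) (64 * Real.exp (L * β))) E L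
  b := β
  c := β + Real.log 2 / L
  ℓ := L
  X := 64 * Real.exp (L * β)

lemma Ch.inv (h : Ch k s β δ Λ L E) (hs : Inv k s) : Inv (k + 1) (nxt k s β L E) := by
  have D := h.dat hs
  have hβ0 := h.hβ0
  have hq := qk_pos k
  have hX64 := h.X64
  have hL0 : (0:ℝ) < L := by exact_mod_cast h.hL1
  have hℓL : (s.ℓ:ℝ) ≤ L := by exact_mod_cast h.hℓL
  have hlog2 : 0 < Real.log 2 := Real.log_pos (by norm_num)
  have hc2 := hs.hc
  have hc1 := h.hc
  refine ⟨hβ0, ?_, ?_, ?_, ?_, ?_, ?_, ?_, ?_⟩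
  · show β < β + Real.log 2 / L
    have : 0 < Real.log 2 / (L:ℝ) := by positivity
    linarith
  · show β + Real.log 2 / L ≤ 1 / 2
    linarith
  · exact Mn_diff D.hM D.hP
  · intro z h0 h1
    show ‖Mn s.M (Pf (qk k) (64 * Real.exp (L * β))) L z - 1‖ ≤
      (1 / 2 - (1 / 2) ^ (k + 1 + 1)) * Real.exp (L * z.re)
    have k1 := hs.m2 z h0 h1
    have k2 : ‖Pf (qk k) (64 * Real.exp (L * β)) z * cexp (L * z)‖ ≤
        qk k * Real.exp (L * z.re) := by
      rw [norm_mul, norm_cexp_nat]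
      exact mul_le_mul_of_nonneg_right (Pf_le hq (by linarith) h1) (Real.exp_pos _).le
    have k3 : Real.exp (s.ℓ * z.re) ≤ Real.exp (L * z.re) :=
      Real.exp_le_exp.2 (mul_le_mul_of_nonneg_right hℓL h0)
    have k4 : (0:ℝ) ≤ 1 / 2 - (1 / 2) ^ (k + 1) := by
      have : ((1:ℝ) / 2) ^ (k + 1) ≤ (1 / 2) ^ 1 :=
        pow_le_pow_of_le_one (by norm_num) (by norm_num) (by omega)
      linarith
    unfold Mn
    calc ‖s.M z + Pf (qk k) (64 * Real.exp (L * β)) z * cexp (L * z) - 1‖ =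
          ‖(s.M z - 1) + Pf (qk k) (64 * Real.exp (L * β)) z * cexp (L * z)‖ := by
            congr 1; ring
      _ ≤ ‖s.M z - 1‖ + ‖Pf (qk k) (64 * Real.exp (L * β)) z * cexp (L * z)‖ := norm_add_le _ _
      _ ≤ (1 / 2 - (1 / 2) ^ (k + 1)) * Real.exp (L * z.re) + qk k * Real.exp (L * z.re) := by
            refine add_le_add (k1.trans (mul_le_mul_of_nonneg_left k3 k4)) k2
      _ = _ := by
            unfold qk
            ring
  · rintro z h0 h1 ⟨m, hm⟩
    obtain ⟨m1, m2⟩ := hs.m3 z h0 h1 ⟨m, hm⟩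
    obtain ⟨t1, t2⟩ := T_quad hq (by linarith : 1 ≤ 64 * Real.exp (L * β)) h1 (L := L) hm
    show 1 ≤ (s.M z + Pf (qk k) (64 * Real.exp (L * β)) z * cexp (L * z)).re ∧
      (s.M z + Pf (qk k) (64 * Real.exp (L * β)) z * cexp (L * z)).im ≤ 0
    rw [Complex.add_re, Complex.add_im]
    exact ⟨by linarith, by linarith⟩
  · intro z h0 h1
    have h1' : z.re ≤ β + Real.log 2 / L := h1
    have hz1 : z.re < 1 := by linarith
    show ‖s.M z + Pf (qk k) (64 * Real.exp (L * β)) z * cexp (L * z)‖ ≤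
      8 / 5 + qk (k + 1) / 8 * ‖1 - z‖
    have k1 := M_upper hs h0 hz1
    have k2 := h.expℓ h1'
    set X := 64 * Real.exp (L * β) with hX
    have k3 : ‖Pf (qk k) X z * cexp (L * z)‖ ≤ qk (k + 1) / 8 * ‖1 - z‖ := by
      have hXz : X / 2 ≤ ‖(X:ℂ) - z‖ := by
        have := Complex.re_le_norm ((X:ℂ) - z)
        rw [Complex.sub_re, Complex.ofReal_re] at this
        linarith
      have hXp : 0 < ‖(X:ℂ) - z‖ := by linarith
      rw [norm_mul, Pf_norm hq, norm_cexp_nat, div_mul_eq_mul_div, div_le_iff₀ hXp]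
      have e1 : Real.exp (L * z.re) ≤ X / 32 := by
        have : Real.exp (L * (β + Real.log 2 / L)) = X / 32 := by
          rw [mul_add, mul_div_cancel₀ _ hL0.ne', Real.exp_add, Real.exp_log (by norm_num), hX]
          ring
        rw [← this]
        exact Real.exp_le_exp.2 (mul_le_mul_of_nonneg_left h1' hL0.le)
      have e2 : qk (k + 1) = qk k / 2 := by unfold qk; ring
      rw [e2]
      calc qk k * ‖1 - z‖ * Real.exp (L * z.re) ≤ qk k * ‖1 - z‖ * (X / 32) :=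
            mul_le_mul_of_nonneg_left e1 (by positivity)
        _ = qk k / 2 / 8 * ‖1 - z‖ * (X / 2) := by ring
        _ ≤ _ := mul_le_mul_of_nonneg_left hXz (by positivity)
    refine (norm_add_le _ _).trans ?_
    linarith
  · exact D.Gn_cont hs.hG
  · intro _ Ψ hΨ
    exact D.exact_next hs.hG hΨ

lemma Ch.rel (h : Ch k s β δ Λ L E) (hs : Inv k s) {C d η : ℝ}
    (hC : ∀ μ ∈ BN s.b (ak k), ‖s.G μ‖ ≤ C) (hd0 : 0 < d) (hd1 : d ≤ s.b / 4)
    (hd2 : d ≤ s.c - s.b) (hd3 : d ≤ 1)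
    (hη : C * (δ * (16 * (1 + (ak (k + 1) + 4 * Real.pi - ak k)) / d + 20)) * 14 ≤ η)
    (hε : Real.log (64 * Real.exp (L * β)) / L ≤ (1 / 2) ^ k) : Rel η k s (nxt k s β L E) := by
  have D := h.dat hs
  have hL0 : (0:ℝ) < L := by exact_mod_cast h.hL1
  refine ⟨h.hL1, h.X64, rfl, h.hc, ?_, hε, ?_, ?_⟩
  · show (L:ℝ) * (β + Real.log 2 / L) ≤ Real.log (64 * Real.exp (L * β))
    rw [Real.log_mul (by norm_num) (Real.exp_pos _).ne', Real.log_exp, mul_add,
      mul_div_cancel₀ _ hL0.ne']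
    have : Real.log 2 ≤ Real.log 64 := Real.log_le_log (by norm_num) (by norm_num)
    linarith
  · intro τ
    refine (D.close hs.hG hC hd0 hd1 hd2 hd3 τ).trans ?_
    exact mul_le_mul_of_nonneg_right hη (Real.exp_pos _).le
  · intro hk n hn τ
    have := D.far hs.hG hC (hs.hex hk) hd0 hd1 hd2 hd3 n hn τ
    refine (le_of_eq_of_le ?_ this).trans ?_
    · rfl
    · apply mul_le_mul_of_nonneg_right _ (Real.exp_pos _).le
      exact mul_le_mul_of_nonneg_right hη (pow_nonneg D.hX n)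

end

theorem step (hR : RungeStm) : StepStm := by
  intro k s η hη hs
  have hpi := Real.pi_pos
  have hb := hs.hb
  have hbc := hs.hbc
  have hc := hs.hc
  have hak := ak_ge k
  have hak2 := ak_succ k
  obtain ⟨C0, hC0⟩ := (Bd_compact (by linarith : s.b / 2 ≤ s.b)
    (by linarith : ak k + 2 * Real.pi ≤ ak k + 4 * Real.pi)).exists_bound_of_continuousOn hs.hG
  set C := max C0 0 with hCdef
  have hC : ∀ μ ∈ BN s.b (ak k), ‖s.G μ‖ ≤ C := fun μ hμ => (hC0 μ hμ).trans (le_max_left _ _)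
  have hCn : 0 ≤ C := le_max_right _ _
  set d := min (s.b / 4) (min (s.c - s.b) 1) with hd
  have hd0 : 0 < d := lt_min (by positivity) (lt_min (by linarith) one_pos)
  have hd1 : d ≤ s.b / 4 := min_le_left _ _
  have hd2 : d ≤ s.c - s.b := (min_le_right _ _).trans (min_le_left _ _)
  have hd3 : d ≤ 1 := (min_le_right _ _).trans (min_le_right _ _)
  set W := 16 * (1 + (ak (k + 1) + 4 * Real.pi - ak k)) / d + 20 with hW
  have hWn : 0 ≤ W := by
    have : 0 ≤ 1 + (ak (k + 1) + 4 * Real.pi - ak k) := by linarith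
    positivity
  obtain ⟨δ, hδ0, hδ1, hδη⟩ : ∃ δ : ℝ, 0 < δ ∧ δ ≤ 1 ∧ C * (δ * W) * 14 ≤ η := by
    refine ⟨min 1 (η / (C * W * 14 + 1)), by positivity, min_le_left _ _, ?_⟩
    have h1 : min 1 (η / (C * W * 14 + 1)) ≤ η / (C * W * 14 + 1) := min_le_right _ _
    calc C * (min 1 (η / (C * W * 14 + 1)) * W) * 14 =
          min 1 (η / (C * W * 14 + 1)) * (C * W * 14) := by ring
      _ ≤ η / (C * W * 14 + 1) * (C * W * 14 + 1) := by
          apply mul_le_mul h1 (by linarith) (by positivity) (by positivity)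
      _ = η := by
          have : C * W * 14 + 1 ≠ 0 := by positivity
          field_simp
  obtain ⟨E, hE, Ea, Ev, Ec, E0, EN⟩ := hR (ak k) (ak (k + 1) + 2 * Real.pi)
    (ak (k + 1) + 4 * Real.pi) s.c (s.b / 2) s.b (ak k + 2 * Real.pi) (ak k + 4 * Real.pi) δ
    (by positivity) (by linarith) hbc (by linarith) (by linarith) (by linarith) (by linarith) hδ0
  obtain ⟨Λ, hΛ⟩ := (isCompact_Icc.reProdIm isCompact_Icc :
    IsCompact (Icc (0:ℝ) s.c ×ℂ Icc (ak k) (ak (k + 1) + 4 * Real.pi))).exists_bound_of_continuousOn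
      hE.continuous.continuousOn
  obtain ⟨ρ, hρ0, hρ⟩ := near_left hE.continuous hδ0 E0
  obtain ⟨β, L, hβ0, h1, h2, h3, h4, h5, h6, h7, h8, h9, h10, h11⟩ := choice s.b s.c δ
    (1 + (ak (k + 1) + 4 * Real.pi)) Λ ρ ((1 / 2) ^ k) s.ℓ hb hbc hδ0 hρ0 (by positivity)
  have hch : Ch k s β δ Λ L E :=
    { hβ0 := hβ0, hβb := h1, hℓL := h3, hL1 := h4, hc := h5, hexp := h6, h8 := h7, ht1 := h8,
      ht2 := h9, ht3 := h10, hδ := hδ0, hδ1 := hδ1, hE := hE, Ea := Ea, Ev := Ev, Ec := Ec,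
      El := fun z k1 k2 k3 k4 => hρ z k1 (k2.trans h2) k3 k4
      EN := EN
      hΛ := fun z k1 k2 k3 k4 => hΛ z ⟨⟨k1, k2⟩, ⟨k3, k4⟩⟩ }
  exact ⟨nxt k s β L E, hch.inv hs, hch.rel hs hC hd0 hd1 hd2 hd3 hδη h11⟩

end Pool.Agent.W2helper26.TR
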