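import Mathlib

/-! Rectangle boundary integrals (the first lemmas follow a starting file, H370R2/Rect). -/

set_option autoImplicit false

open Complex Filter Topology Set MeasureTheory

namespace Pool.Agent.W2helper26.TR

/-- integral of 1/(w-p) over a rectangle boundary. -/
lemma rect_inv (a b c d : ℝ) (p : ℂ) (ha : a < p.re) (hb : p.re < b) (hc : c < p.im)
    (hd : p.im < d) :
    (∫ x in a..b, ((x:ℂ) + c * I - p)⁻¹) - (∫ x in a..b, ((x:ℂ) + d * I - p)⁻¹)
      + I * (∫ y in c..d, ((b:ℂ) + y * I - p)⁻¹) - I * (∫ y in c..d, ((a:ℂ) + y * I - p)⁻¹)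
      = 2 * Real.pi * I := by
  have h1 : (∫ x in a..b, ((x:ℂ) + c * I - p)⁻¹) = log (b + c * I - p) - log (a + c * I - p) := by
    have := intervalIntegral.integral_eq_sub_of_hasDerivAt
      (f := fun x : ℝ => log ((x:ℂ) + c * I - p)) (f' := fun x : ℝ => ((x:ℂ) + c * I - p)⁻¹)
      (a := a) (b := b) ?_ ?_
    · exact this
    · intro x _
      have h : HasDerivAt (fun x : ℝ => (x:ℂ) + c * I - p) 1 x :=
        ((Complex.ofRealCLM.hasDerivAt (x := x)).add_const _).sub_const _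
      have := h.clog_real (Or.inr (by simp; intro h; linarith))
      simpa using this
    · apply ContinuousOn.intervalIntegrable
      apply ContinuousOn.inv₀
      · fun_prop
      · intro x _ h
        have := congrArg Complex.im h
        simp at this
        linarith
  have h2 : (∫ x in a..b, ((x:ℂ) + d * I - p)⁻¹) = log (b + d * I - p) - log (a + d * I - p) := by
    have := intervalIntegral.integral_eq_sub_of_hasDerivAt
      (f := fun x : ℝ => log ((x:ℂ) + d * I - p)) (f' := fun x : ℝ => ((x:ℂ) + d * I - p)⁻¹)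
      (a := a) (b := b) ?_ ?_
    · exact this
    · intro x _
      have h : HasDerivAt (fun x : ℝ => (x:ℂ) + d * I - p) 1 x :=
        ((Complex.ofRealCLM.hasDerivAt (x := x)).add_const _).sub_const _
      have := h.clog_real (Or.inr (by simp; intro h; linarith))
      simpa using this
    · apply ContinuousOn.intervalIntegrable
      apply ContinuousOn.inv₀
      · fun_prop
      · intro x _ h
        have := congrArg Complex.im h
        simp at this
        linarith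
  have h3 : I * (∫ y in c..d, ((b:ℂ) + y * I - p)⁻¹) = log (b + d * I - p) - log (b + c * I - p) := by
    have := intervalIntegral.integral_eq_sub_of_hasDerivAt
      (f := fun y : ℝ => log ((b:ℂ) + y * I - p)) (f' := fun y : ℝ => I * ((b:ℂ) + y * I - p)⁻¹)
      (a := c) (b := d) ?_ ?_
    · rw [← intervalIntegral.integral_const_mul]
      exact this
    · intro y _
      have h : HasDerivAt (fun y : ℝ => (b:ℂ) + y * I - p) I y := by
        have := ((Complex.ofRealCLM.hasDerivAt (x := y)).mul_const I).const_add (b:ℂ) |>.sub_const p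
        simpa using this
      have := h.clog_real (Or.inl (by simp; linarith))
      simpa [div_eq_mul_inv] using this
    · apply ContinuousOn.intervalIntegrable
      apply ContinuousOn.mul continuousOn_const
      apply ContinuousOn.inv₀
      · fun_prop
      · intro x _ h
        have := congrArg Complex.re h
        simp at this
        linarith
  have h4 : I * (∫ y in c..d, ((a:ℂ) + y * I - p)⁻¹) = log (p - (a + d * I)) - log (p - (a + c * I)) := by
    have := intervalIntegral.integral_eq_sub_of_hasDerivAt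
      (f := fun y : ℝ => log (p - ((a:ℂ) + y * I))) (f' := fun y : ℝ => I * ((a:ℂ) + y * I - p)⁻¹)
      (a := c) (b := d) ?_ ?_
    · rw [← intervalIntegral.integral_const_mul]
      exact this
    · intro y _
      have h : HasDerivAt (fun y : ℝ => p - ((a:ℂ) + y * I)) (-I) y := by
        have := (((Complex.ofRealCLM.hasDerivAt (x := y)).mul_const I).const_add (a:ℂ)).const_sub p
        simpa using this
      have := h.clog_real (Or.inl (by simp; linarith))
      have e : I * ((a:ℂ) + y * I - p)⁻¹ = -I / (p - ((a:ℂ) + y * I)) := by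
        rw [div_eq_mul_inv, ← neg_sub ((a:ℂ) + y * I) p, inv_neg]
        ring
      rw [e]
      exact this
    · apply ContinuousOn.intervalIntegrable
      apply ContinuousOn.mul continuousOn_const
      apply ContinuousOn.inv₀
      · fun_prop
      · intro x _ h
        have := congrArg Complex.re h
        simp at this
        linarith
  rw [h1, h2, h3, h4]
  have key : ∀ z : ℂ, 0 < z.im → log z - log (-z) = Real.pi * I := by
    intro z hz
    have hz0 : z ≠ 0 := by rintro rfl; simp at hz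
    rw [Complex.log, Complex.log, Complex.arg_neg_eq_arg_sub_pi_of_im_pos hz]
    simp
    ring
  have k1 := key (a + d * I - p) (by simp; linarith)
  have k2 := key (p - (a + c * I)) (by simp; linarith)
  rw [neg_sub] at k1 k2
  linear_combination k1 + k2

/-- boundary integral of a rectangle (counterclockwise) -/
noncomputable def RI (a b c d : ℝ) (f : ℂ → ℂ) : ℂ :=
  (∫ x in a..b, f ⟨x, c⟩) - (∫ x in a..b, f ⟨x, d⟩)
    + I * (∫ y in c..d, f ⟨b, y⟩) - I * (∫ y in c..d, f ⟨a, y⟩)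

/-- the boundary of the rectangle -/
def Bd (a b c d : ℝ) : Set ℂ :=
  {s | (s.re ∈ Set.Icc a b ∧ (s.im = c ∨ s.im = d)) ∨ (s.im ∈ Set.Icc c d ∧ (s.re = a ∨ s.re = b))}

lemma mk_eq (x y : ℝ) : (⟨x, y⟩ : ℂ) = (x : ℂ) + y * I := by
  apply Complex.ext <;> simp

lemma Bd_sub {a b c d : ℝ} (hab : a ≤ b) (hcd : c ≤ d) : Bd a b c d ⊆ Set.Icc a b ×ℂ Set.Icc c d := by
  rintro s (⟨h1, h2 | h2⟩ | ⟨h1, h2 | h2⟩)
  · exact ⟨h1, by rw [mem_preimage, h2]; exact ⟨le_rfl, hcd⟩⟩
  · exact ⟨h1, by rw [mem_preimage, h2]; exact ⟨hcd, le_rfl⟩⟩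
  · exact ⟨by rw [mem_preimage, h2]; exact ⟨le_rfl, hab⟩, h1⟩
  · exact ⟨by rw [mem_preimage, h2]; exact ⟨hab, le_rfl⟩, h1⟩

lemma Bd_not_Ioo {a b c d : ℝ} {s : ℂ} (hs : s ∈ Bd a b c d) :
    s ∉ Set.Ioo a b ×ℂ Set.Ioo c d := by
  rintro ⟨h1, h2⟩
  rw [mem_preimage] at h1 h2
  rcases hs with (⟨h3, h4 | h4⟩ | ⟨h3, h4 | h4⟩)
  · exact absurd h2.1 (by rw [h4]; exact lt_irrefl _)
  · exact absurd h2.2 (by rw [h4]; exact lt_irrefl _)
  · exact absurd h1.1 (by rw [h4]; exact lt_irrefl _)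
  · exact absurd h1.2 (by rw [h4]; exact lt_irrefl _)

lemma ii_h {a b c d : ℝ} (hab : a ≤ b) {f : ℂ → ℂ} (hf : ContinuousOn f (Bd a b c d)) {e : ℝ}
    (he : e = c ∨ e = d) : IntervalIntegrable (fun x : ℝ => f ⟨x, e⟩) volume a b := by
  apply ContinuousOn.intervalIntegrable
  rw [uIcc_of_le hab]
  have h1 : ContinuousOn (fun x : ℝ => (⟨x, e⟩ : ℂ)) (Icc a b) := by
    have : (fun x : ℝ => (⟨x, e⟩ : ℂ)) = fun x : ℝ => (x : ℂ) + e * I := by
      funext x; exact mk_eq x e
    rw [this]; fun_prop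
  exact hf.comp h1 (fun x hx => Or.inl ⟨hx, he⟩)

lemma ii_v {a b c d : ℝ} (hcd : c ≤ d) {f : ℂ → ℂ} (hf : ContinuousOn f (Bd a b c d)) {e : ℝ}
    (he : e = a ∨ e = b) : IntervalIntegrable (fun y : ℝ => f ⟨e, y⟩) volume c d := by
  apply ContinuousOn.intervalIntegrable
  rw [uIcc_of_le hcd]
  have h1 : ContinuousOn (fun y : ℝ => (⟨e, y⟩ : ℂ)) (Icc c d) := by
    have : (fun y : ℝ => (⟨e, y⟩ : ℂ)) = fun y : ℝ => (e : ℂ) + y * I := by
      funext x; exact mk_eq e x
    rw [this]; fun_prop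
  exact hf.comp h1 (fun x hx => Or.inr ⟨hx, he⟩)

lemma RI_add {a b c d : ℝ} (hab : a ≤ b) (hcd : c ≤ d) {f g : ℂ → ℂ}
    (hf : ContinuousOn f (Bd a b c d)) (hg : ContinuousOn g (Bd a b c d)) :
    RI a b c d (fun s => f s + g s) = RI a b c d f + RI a b c d g := by
  unfold RI
  rw [intervalIntegral.integral_add (ii_h hab hf (Or.inl rfl)) (ii_h hab hg (Or.inl rfl)),
    intervalIntegral.integral_add (ii_h hab hf (Or.inr rfl)) (ii_h hab hg (Or.inr rfl)),
    intervalIntegral.integral_add (ii_v hcd hf (Or.inr rfl)) (ii_v hcd hg (Or.inr rfl)),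
    intervalIntegral.integral_add (ii_v hcd hf (Or.inl rfl)) (ii_v hcd hg (Or.inl rfl))]
  ring

lemma RI_congr {a b c d : ℝ} (hab : a ≤ b) (hcd : c ≤ d) {f g : ℂ → ℂ}
    (h : ∀ s ∈ Bd a b c d, f s = g s) : RI a b c d f = RI a b c d g := by
  unfold RI
  rw [intervalIntegral.integral_congr (g := fun x : ℝ => g ⟨x, c⟩),
    intervalIntegral.integral_congr (a := a) (b := b) (f := fun x : ℝ => f ⟨x, d⟩)
      (g := fun x : ℝ => g ⟨x, d⟩),
    intervalIntegral.integral_congr (a := c) (b := d) (f := fun y : ℝ => f ⟨b, y⟩)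
      (g := fun y : ℝ => g ⟨b, y⟩),
    intervalIntegral.integral_congr (a := c) (b := d) (f := fun y : ℝ => f ⟨a, y⟩)
      (g := fun y : ℝ => g ⟨a, y⟩)]
  · intro y hy; rw [uIcc_of_le hcd] at hy; exact h _ (Or.inr ⟨hy, Or.inl rfl⟩)
  · intro y hy; rw [uIcc_of_le hcd] at hy; exact h _ (Or.inr ⟨hy, Or.inr rfl⟩)
  · intro y hy; rw [uIcc_of_le hab] at hy; exact h _ (Or.inl ⟨hy, Or.inr rfl⟩)
  · intro y hy; rw [uIcc_of_le hab] at hy; exact h _ (Or.inl ⟨hy, Or.inl rfl⟩)

lemma RI_const_mul {a b c d : ℝ} (k : ℂ) (f : ℂ → ℂ) :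
    RI a b c d (fun s => k * f s) = k * RI a b c d f := by
  unfold RI
  simp only [intervalIntegral.integral_const_mul]
  ring

lemma RI_zero {a b c d : ℝ} (hab : a ≤ b) (hcd : c ≤ d) {f : ℂ → ℂ}
    (hf : DifferentiableOn ℂ f (Set.Icc a b ×ℂ Set.Icc c d)) : RI a b c d f = 0 := by
  have H := Complex.integral_boundary_rect_eq_zero_of_differentiableOn f ⟨a, c⟩ ⟨b, d⟩ (by
    simpa [uIcc_of_le hab, uIcc_of_le hcd] using hf)
  unfold RI
  simp only [mk_eq]
  simpa [smul_eq_mul] using H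

lemma RI_inv {a b c d : ℝ} {p : ℂ} (hp : p ∈ Set.Ioo a b ×ℂ Set.Ioo c d) :
    RI a b c d (fun s => (s - p)⁻¹) = 2 * Real.pi * I := by
  obtain ⟨h1, h2⟩ := hp
  rw [mem_preimage] at h1 h2
  unfold RI
  simp only [mk_eq]
  exact rect_inv a b c d p h1.1 h1.2 h2.1 h2.2

lemma RI_cauchy {a b c d : ℝ} (hab : a < b) (hcd : c < d) {h : ℂ → ℂ} (hh : Differentiable ℂ h)
    {p : ℂ} (hp : p ∈ Set.Ioo a b ×ℂ Set.Ioo c d) :
    RI a b c d (fun s => h s * (s - p)⁻¹) = 2 * Real.pi * I * h p := by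
  have hds : Differentiable ℂ (dslope h p) := by
    have := (Complex.differentiableOn_dslope (s := Set.univ) (c := p) (f := h) univ_mem).2
      hh.differentiableOn
    exact differentiableOn_univ.1 this
  have hB : ∀ s ∈ Bd a b c d, s ≠ p := fun s hs he => Bd_not_Ioo hs (he ▸ hp)
  have hci : ContinuousOn (fun s : ℂ => (s - p)⁻¹) (Bd a b c d) := by
    apply ContinuousOn.inv₀ (by fun_prop)
    intro s hs
    exact sub_ne_zero.2 (hB s hs)
  have e1 : RI a b c d (fun s => h s * (s - p)⁻¹) =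
      RI a b c d (fun s => dslope h p s + h p * (s - p)⁻¹) := by
    apply RI_congr hab.le hcd.le
    intro s hs
    rw [dslope_of_ne _ (hB s hs), slope_def_field]
    ring
  rw [e1, RI_add hab.le hcd.le (g := fun s => h p * (s - p)⁻¹) hds.continuous.continuousOn
    (continuousOn_const.mul hci),
    RI_zero hab.le hcd.le hds.differentiableOn, RI_const_mul, RI_inv hp]
  ring


lemma RI_cauchyOn {a b c d : ℝ} (hab : a < b) (hcd : c < d) {h : ℂ → ℂ}
    (hh : DifferentiableOn ℂ h (Set.Icc a b ×ℂ Set.Icc c d))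
    {p : ℂ} (hp : p ∈ Set.Ioo a b ×ℂ Set.Ioo c d) :
    RI a b c d (fun s => h s * (s - p)⁻¹) = 2 * Real.pi * I * h p := by
  have hnh : (Set.Icc a b ×ℂ Set.Icc c d) ∈ 𝓝 p := by
    have h1 : Set.Ioo a b ×ℂ Set.Ioo c d ∈ 𝓝 p := (isOpen_Ioo.reProdIm isOpen_Ioo).mem_nhds hp
    refine Filter.mem_of_superset h1 ?_
    rintro z ⟨hz1, hz2⟩
    exact ⟨Ioo_subset_Icc_self hz1, Ioo_subset_Icc_self hz2⟩
  have hds : DifferentiableOn ℂ (dslope h p) (Set.Icc a b ×ℂ Set.Icc c d) :=
    (Complex.differentiableOn_dslope hnh).2 hh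
  have hB : ∀ s ∈ Bd a b c d, s ≠ p := fun s hs he => Bd_not_Ioo hs (he ▸ hp)
  have hci : ContinuousOn (fun s : ℂ => (s - p)⁻¹) (Bd a b c d) := by
    apply ContinuousOn.inv₀ (by fun_prop)
    intro s hs
    exact sub_ne_zero.2 (hB s hs)
  have e1 : RI a b c d (fun s => h s * (s - p)⁻¹) =
      RI a b c d (fun s => dslope h p s + h p * (s - p)⁻¹) := by
    apply RI_congr hab.le hcd.le
    intro s hs
    rw [dslope_of_ne _ (hB s hs), slope_def_field]
    ring
  rw [e1, RI_add hab.le hcd.le (g := fun s => h p * (s - p)⁻¹)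
    (hds.continuousOn.mono (Bd_sub hab.le hcd.le))
    (continuousOn_const.mul hci),
    RI_zero hab.le hcd.le hds, RI_const_mul, RI_inv hp]
  ring

lemma RI_split_re {a m b c d : ℝ} (ham : a ≤ m) (hmb : m ≤ b) (hcd : c ≤ d) {f : ℂ → ℂ}
    (h1 : ContinuousOn f (Bd a m c d)) (h2 : ContinuousOn f (Bd m b c d)) :
    RI a b c d f = RI a m c d f + RI m b c d f := by
  unfold RI
  rw [← intervalIntegral.integral_add_adjacent_intervals (a := a) (b := m) (c := b)
      (f := fun x : ℝ => f ⟨x, c⟩) (ii_h ham h1 (Or.inl rfl)) (ii_h hmb h2 (Or.inl rfl)),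
    ← intervalIntegral.integral_add_adjacent_intervals (a := a) (b := m) (c := b)
      (f := fun x : ℝ => f ⟨x, d⟩) (ii_h ham h1 (Or.inr rfl)) (ii_h hmb h2 (Or.inr rfl))]
  ring

lemma RI_split_im {a b c m d : ℝ} (hab : a ≤ b) (hcm : c ≤ m) (hmd : m ≤ d) {f : ℂ → ℂ}
    (h1 : ContinuousOn f (Bd a b c m)) (h2 : ContinuousOn f (Bd a b m d)) :
    RI a b c d f = RI a b c m f + RI a b m d f := by
  unfold RI
  rw [← intervalIntegral.integral_add_adjacent_intervals (a := c) (b := m) (c := d)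
      (f := fun y : ℝ => f ⟨b, y⟩) (ii_v hcm h1 (Or.inr rfl)) (ii_v hmd h2 (Or.inr rfl)),
    ← intervalIntegral.integral_add_adjacent_intervals (a := c) (b := m) (c := d)
      (f := fun y : ℝ => f ⟨a, y⟩) (ii_v hcm h1 (Or.inl rfl)) (ii_v hmd h2 (Or.inl rfl))]
  ring

lemma RI_norm_le {a b c d : ℝ} (hab : a ≤ b) (hcd : c ≤ d) {f : ℂ → ℂ} {B : ℝ}
    (h : ∀ s ∈ Bd a b c d, ‖f s‖ ≤ B) :
    ‖RI a b c d f‖ ≤ B * (2 * (b - a) + 2 * (d - c)) := by
  have e1 : ‖∫ x in a..b, f ⟨x, c⟩‖ ≤ B * |b - a| :=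
    intervalIntegral.norm_integral_le_of_norm_le_const (fun x hx => by
      rw [uIoc_of_le hab] at hx
      exact h _ (Or.inl ⟨Ioc_subset_Icc_self hx, Or.inl rfl⟩))
  have e2 : ‖∫ x in a..b, f ⟨x, d⟩‖ ≤ B * |b - a| :=
    intervalIntegral.norm_integral_le_of_norm_le_const (fun x hx => by
      rw [uIoc_of_le hab] at hx
      exact h _ (Or.inl ⟨Ioc_subset_Icc_self hx, Or.inr rfl⟩))
  have e3 : ‖∫ y in c..d, f ⟨b, y⟩‖ ≤ B * |d - c| :=
    intervalIntegral.norm_integral_le_of_norm_le_const (fun y hy => by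
      rw [uIoc_of_le hcd] at hy
      exact h _ (Or.inr ⟨Ioc_subset_Icc_self hy, Or.inr rfl⟩))
  have e4 : ‖∫ y in c..d, f ⟨a, y⟩‖ ≤ B * |d - c| :=
    intervalIntegral.norm_integral_le_of_norm_le_const (fun y hy => by
      rw [uIoc_of_le hcd] at hy
      exact h _ (Or.inr ⟨Ioc_subset_Icc_self hy, Or.inl rfl⟩))
  rw [abs_of_nonneg (by linarith)] at e1 e2 e3 e4
  unfold RI
  have e5 : ‖I * ∫ y in c..d, f ⟨b, y⟩‖ ≤ B * (d - c) := by
    rw [norm_mul, norm_I, one_mul]; exact e3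
  have e6 : ‖I * ∫ y in c..d, f ⟨a, y⟩‖ ≤ B * (d - c) := by
    rw [norm_mul, norm_I, one_mul]; exact e4
  have t1 := norm_sub_le (∫ x in a..b, f ⟨x, c⟩) (∫ x in a..b, f ⟨x, d⟩)
  have t2 := norm_add_le ((∫ x in a..b, f ⟨x, c⟩) - ∫ x in a..b, f ⟨x, d⟩)
    (I * ∫ y in c..d, f ⟨b, y⟩)
  have t3 := norm_sub_le ((∫ x in a..b, f ⟨x, c⟩) - (∫ x in a..b, f ⟨x, d⟩) +
    I * ∫ y in c..d, f ⟨b, y⟩) (I * ∫ y in c..d, f ⟨a, y⟩)
  linarith

/-- the four sides, parametrised by `[0,1]` -/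
noncomputable def sd (a b c d : ℝ) (i : Fin 4) (t : ℝ) : ℂ :=
  match i with
  | 0 => ⟨a + (b - a) * t, c⟩
  | 1 => ⟨a + (b - a) * t, d⟩
  | 2 => ⟨b, c + (d - c) * t⟩
  | 3 => ⟨a, c + (d - c) * t⟩

/-- the coefficients of the four sides -/
noncomputable def cf (a b c d : ℝ) (i : Fin 4) : ℂ :=
  match i with
  | 0 => ((b - a : ℝ) : ℂ)
  | 1 => -((b - a : ℝ) : ℂ)
  | 2 => I * ((d - c : ℝ) : ℂ)
  | 3 => -(I * ((d - c : ℝ) : ℂ))

lemma RI_eq_sum (a b c d : ℝ) (f : ℂ → ℂ) :
    RI a b c d f = ∑ i, cf a b c d i * ∫ t in (0:ℝ)..1, f (sd a b c d i t) := by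
  have key : ∀ (p q : ℝ) (h : ℝ → ℂ), ∫ x in p..q, h x =
      ((q - p : ℝ) : ℂ) * ∫ t in (0:ℝ)..1, h (p + (q - p) * t) := by
    intro p q h
    have := intervalIntegral.smul_integral_comp_add_mul (a := 0) (b := 1) h (q - p) p
    rw [mul_zero, add_zero, mul_one, show p + (q - p) = q by ring] at this
    rw [← this, Complex.real_smul]
  rw [Fin.sum_univ_four]
  unfold RI
  rw [key a b (fun x => f ⟨x, c⟩), key a b (fun x => f ⟨x, d⟩), key c d (fun y => f ⟨b, y⟩),
    key c d (fun y => f ⟨a, y⟩)]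
  simp only [sd, cf]
  ring

lemma sd_cont (a b c d : ℝ) (i : Fin 4) : Continuous (sd a b c d i) := by
  have h1 : ∀ (u v : ℝ → ℝ), Continuous u → Continuous v →
      Continuous (fun t : ℝ => (⟨u t, v t⟩ : ℂ)) := by
    intro u v hu hv
    have : (fun t : ℝ => (⟨u t, v t⟩ : ℂ)) = fun t : ℝ => (u t : ℂ) + v t * I := by
      funext t; exact mk_eq _ _
    rw [this]
    fun_prop
  fin_cases i
  · exact h1 (fun t => a + (b - a) * t) (fun _ => c) (by fun_prop) (by fun_prop)
  · exact h1 (fun t => a + (b - a) * t) (fun _ => d) (by fun_prop) (by fun_prop)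
  · exact h1 (fun _ => b) (fun t => c + (d - c) * t) (by fun_prop) (by fun_prop)
  · exact h1 (fun _ => a) (fun t => c + (d - c) * t) (by fun_prop) (by fun_prop)

lemma sd_mem {a b c d : ℝ} (hab : a ≤ b) (hcd : c ≤ d) (i : Fin 4) {t : ℝ} (ht : t ∈ Icc (0:ℝ) 1) :
    sd a b c d i t ∈ Bd a b c d := by
  have hx : a + (b - a) * t ∈ Icc a b := by
    constructor <;> nlinarith [ht.1, ht.2]
  have hy : c + (d - c) * t ∈ Icc c d := by
    constructor <;> nlinarith [ht.1, ht.2]
  fin_cases i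
  · exact Or.inl ⟨hx, Or.inl rfl⟩
  · exact Or.inl ⟨hx, Or.inr rfl⟩
  · exact Or.inr ⟨hy, Or.inr rfl⟩
  · exact Or.inr ⟨hy, Or.inl rfl⟩

/-- Parametric continuity of an integral over `[0,1]`. -/
lemma param_contOn {X : Type*} [TopologicalSpace X] {S : Set X} {H : X → ℝ → ℂ}
    (hH : ContinuousOn (Function.uncurry H) (S ×ˢ Icc (0:ℝ) 1)) :
    ContinuousOn (fun s => ∫ t in (0:ℝ)..1, H s t) S := by
  rw [continuousOn_iff_continuous_domRestrict]
  have e : S.domRestrict (fun s => ∫ t in (0:ℝ)..1, H s t) = fun s : S =>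
      ∫ t in (0:ℝ)..1, H s (projIcc 0 1 zero_le_one t) := by
    funext s
    show (∫ t in (0:ℝ)..1, H s t) = _
    apply intervalIntegral.integral_congr
    intro t ht
    rw [uIcc_of_le zero_le_one] at ht
    simp only
    rw [projIcc_of_mem zero_le_one ht]
  rw [e]
  apply intervalIntegral.continuous_parametric_intervalIntegral_of_continuous'
  have hc : Continuous (fun p : S × ℝ => ((p.1 : X), ((projIcc 0 1 zero_le_one p.2 : Icc (0:ℝ) 1) : ℝ))) := by
    apply Continuous.prodMk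
    · exact continuous_subtype_val.comp continuous_fst
    · exact continuous_subtype_val.comp (continuous_projIcc.comp continuous_snd)
  exact hH.comp_continuous hc (fun p => ⟨p.1.2, (projIcc 0 1 zero_le_one p.2).2⟩)

/-- Parametric continuity of `RI`. -/
lemma RI_contOn {X : Type*} [TopologicalSpace X] {a b c d : ℝ} (hab : a ≤ b) (hcd : c ≤ d)
    {S : Set X} {K : X → ℂ → ℂ}
    (hK : ContinuousOn (Function.uncurry K) (S ×ˢ Bd a b c d)) :
    ContinuousOn (fun s => RI a b c d (K s)) S := by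
  have e : (fun s => RI a b c d (K s)) = fun s =>
      ∑ i, cf a b c d i * ∫ t in (0:ℝ)..1, K s (sd a b c d i t) := by
    funext s
    rw [RI_eq_sum]
  rw [e]
  apply continuousOn_finset_sum
  intro i _
  apply ContinuousOn.mul continuousOn_const
  apply param_contOn
  have hc : Continuous (fun p : X × ℝ => (p.1, sd a b c d i p.2)) :=
    continuous_fst.prodMk ((sd_cont a b c d i).comp continuous_snd)
  exact hK.comp hc.continuousOn (fun p hp => ⟨hp.1, sd_mem hab hcd i hp.2⟩)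

lemma swap01 {F : ℝ → ℝ → ℂ} (hF : ContinuousOn (Function.uncurry F) (Icc (0:ℝ) 1 ×ˢ Icc (0:ℝ) 1)) :
    ∫ x in (0:ℝ)..1, ∫ y in (0:ℝ)..1, F x y = ∫ y in (0:ℝ)..1, ∫ x in (0:ℝ)..1, F x y := by
  apply intervalIntegral_intervalIntegral_swap
  rw [uIoc_of_le zero_le_one]
  exact (hF.integrableOn_compact (isCompact_Icc.prod isCompact_Icc)).mono_set
    (Set.prod_mono Ioc_subset_Icc_self Ioc_subset_Icc_self)

/-- Fubini for two rectangle boundary integrals. -/
lemma RI_swap {a b c d a' b' c' d' : ℝ} (hab : a ≤ b) (hcd : c ≤ d) (hab' : a' ≤ b')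
    (hcd' : c' ≤ d') {K : ℂ → ℂ → ℂ}
    (hK : ContinuousOn (Function.uncurry K) (Bd a b c d ×ˢ Bd a' b' c' d')) :
    RI a b c d (fun s => RI a' b' c' d' (fun u => K s u)) =
      RI a' b' c' d' (fun u => RI a b c d (fun s => K s u)) := by
  have hpc : ∀ i j, ContinuousOn (Function.uncurry
      (fun x y : ℝ => K (sd a b c d i x) (sd a' b' c' d' j y))) (Icc 0 1 ×ˢ Icc 0 1) := by
    intro i j
    have hc : Continuous (fun p : ℝ × ℝ => (sd a b c d i p.1, sd a' b' c' d' j p.2)) :=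
      ((sd_cont a b c d i).comp continuous_fst).prodMk ((sd_cont a' b' c' d' j).comp continuous_snd)
    exact hK.comp hc.continuousOn (fun p hp => ⟨sd_mem hab hcd i hp.1, sd_mem hab' hcd' j hp.2⟩)
  have hpc' : ∀ i j, ContinuousOn (Function.uncurry
      (fun y x : ℝ => K (sd a b c d i x) (sd a' b' c' d' j y))) (Icc 0 1 ×ˢ Icc 0 1) := by
    intro i j
    exact (hpc i j).comp continuous_swap.continuousOn (fun p hp => ⟨hp.2, hp.1⟩)
  have hin1 : ∀ i j, IntervalIntegrable (fun t : ℝ => ∫ s in (0:ℝ)..1,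
      K (sd a b c d i t) (sd a' b' c' d' j s)) volume 0 1 := by
    intro i j
    apply ContinuousOn.intervalIntegrable
    rw [uIcc_of_le zero_le_one]
    exact param_contOn (hpc i j)
  have hin2 : ∀ i j, IntervalIntegrable (fun s : ℝ => ∫ t in (0:ℝ)..1,
      K (sd a b c d i t) (sd a' b' c' d' j s)) volume 0 1 := by
    intro i j
    apply ContinuousOn.intervalIntegrable
    rw [uIcc_of_le zero_le_one]
    exact param_contOn (hpc' i j)
  rw [RI_eq_sum, RI_eq_sum a' b' c' d']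
  simp only [RI_eq_sum]
  have l1 : ∀ i, ∫ t in (0:ℝ)..1, ∑ j, cf a' b' c' d' j * ∫ s in (0:ℝ)..1,
      K (sd a b c d i t) (sd a' b' c' d' j s) =
      ∑ j, cf a' b' c' d' j * ∫ t in (0:ℝ)..1, ∫ s in (0:ℝ)..1,
      K (sd a b c d i t) (sd a' b' c' d' j s) := by
    intro i
    rw [intervalIntegral.integral_finset_sum]
    · refine Finset.sum_congr rfl fun j _ => ?_
      rw [intervalIntegral.integral_const_mul]
    · intro j _
      exact (hin1 i j).const_mul _
  have l2 : ∀ j, ∫ s in (0:ℝ)..1, ∑ i, cf a b c d i * ∫ t in (0:ℝ)..1,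
      K (sd a b c d i t) (sd a' b' c' d' j s) =
      ∑ i, cf a b c d i * ∫ s in (0:ℝ)..1, ∫ t in (0:ℝ)..1,
      K (sd a b c d i t) (sd a' b' c' d' j s) := by
    intro j
    rw [intervalIntegral.integral_finset_sum]
    · refine Finset.sum_congr rfl fun i _ => ?_
      rw [intervalIntegral.integral_const_mul]
    · intro i _
      exact (hin2 i j).const_mul _
  simp only [l1, l2, Finset.mul_sum]
  rw [Finset.sum_comm]
  refine Finset.sum_congr rfl fun j _ => Finset.sum_congr rfl fun i _ => ?_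
  rw [swap01 (hpc i j)]
  ring

end Pool.Agent.W2helper26.TR
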