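import Pool.Agent.W2helper26.TR.Rect

/-! The core estimate at a fixed point `μ`. -/

set_option autoImplicit false

open Complex Filter Topology Set MeasureTheory

namespace Pool.Agent.W2helper26.TR

/-- `M' = M + P e^{Lz}` -/
noncomputable def Mn (M P : ℂ → ℂ) (L : ℕ) (z : ℂ) : ℂ := M z + P z * cexp (L * z)

/-- `K = - E P e^{Lz} / M'` -/
noncomputable def Kf (M P E : ℂ → ℂ) (L : ℕ) (z : ℂ) : ℂ :=
  -(E z * (P z * cexp (L * z)) / Mn M P L z)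

/-- The factor `(-M/P)^n e^{τ z}`. -/
noncomputable def hf (M P : ℂ → ℂ) (n : ℕ) (τ : ℝ) (z : ℂ) : ℂ :=
  (-(M z / P z)) ^ n * cexp (τ * z)

structure Dat (M P E : ℂ → ℂ) (L : ℕ) (α β b c a u v X δ : ℝ) : Prop where
  hα : 0 < α
  hαβ : α < β
  hβb : β < b / 4
  hbc : b < c
  hc : c < 1
  ha : 2 * Real.pi ≤ a
  hu : a + 6 * Real.pi ≤ u
  huv : u < v
  hX : 0 ≤ X
  hδ : 0 ≤ δ
  hM : DifferentiableOn ℂ M {z | z.re < 1}
  hP : DifferentiableOn ℂ P {z | z.re < 1}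
  hP0 : ∀ z : ℂ, z.re < 1 → P z ≠ 0
  hE : Differentiable ℂ E
  hor : ∀ z : ℂ, α ≤ z.re → z.re ≤ c → (z.im = a ∨ z.im = u ∨ z.im = v) →
    Mn M P L z ≠ 0 ∧ ‖P z * cexp (L * z)‖ ≤ ‖Mn M P L z‖
  band : ∀ z : ℂ, β ≤ z.re → z.re ≤ c → a ≤ z.im → z.im ≤ v →
    Mn M P L z ≠ 0 ∧ ‖P z * cexp (L * z)‖ ≤ 2 * ‖Mn M P L z‖
  left : ∀ z : ℂ, z.re = α → a ≤ z.im → z.im ≤ v →
    Mn M P L z ≠ 0 ∧ ‖E z‖ * ‖P z * cexp (L * z)‖ ≤ δ * ‖Mn M P L z‖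
  quot : ∀ z : ℂ, α ≤ z.re → z.re ≤ c → a ≤ z.im → z.im ≤ v → ‖M z‖ ≤ X * ‖P z‖
  near : ∀ z : ℂ, b / 2 ≤ z.re → z.re ≤ b → a + 2 * Real.pi ≤ z.im → z.im ≤ a + 4 * Real.pi →
    ‖M z‖ ≤ δ * ‖Mn M P L z‖ ∧ ‖E z - 1‖ ≤ δ ∧ ‖E z‖ ≤ 2
  Ea : ∀ z : ℂ, 0 ≤ z.re → z.re ≤ c → z.im = a → ‖E z‖ ≤ δ
  Ev : ∀ z : ℂ, 0 ≤ z.re → z.re ≤ c → z.im = v → ‖E z‖ ≤ δ
  Ec : ∀ z : ℂ, z.re = c → a ≤ z.im → z.im ≤ v → ‖E z‖ ≤ δ
  El : ∀ z : ℂ, 0 ≤ z.re → z.re ≤ β → a ≤ z.im → z.im ≤ u → ‖E z‖ ≤ 2 * δ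

lemma Mn_diff {M P : ℂ → ℂ} {L : ℕ} (hM : DifferentiableOn ℂ M {z | z.re < 1})
    (hP : DifferentiableOn ℂ P {z | z.re < 1}) :
    DifferentiableOn ℂ (Mn M P L) {z | z.re < 1} := by
  unfold Mn
  refine hM.add (hP.mul ?_)
  exact (by fun_prop : Differentiable ℂ fun z : ℂ => cexp (L * z)).differentiableOn

lemma Kf_diff {M P E : ℂ → ℂ} {L : ℕ} (hM : DifferentiableOn ℂ M {z | z.re < 1})
    (hP : DifferentiableOn ℂ P {z | z.re < 1}) (hE : Differentiable ℂ E) :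
    DifferentiableOn ℂ (Kf M P E L) {z | z.re < 1 ∧ Mn M P L z ≠ 0} := by
  have h1 : DifferentiableOn ℂ (Mn M P L) {z | z.re < 1 ∧ Mn M P L z ≠ 0} :=
    (Mn_diff hM hP).mono fun z hz => hz.1
  have h2 : DifferentiableOn ℂ (fun z => E z * (P z * cexp (L * z)))
      {z | z.re < 1 ∧ Mn M P L z ≠ 0} := by
    refine hE.differentiableOn.mul ((hP.mono fun z hz => hz.1).mul ?_)
    exact (by fun_prop : Differentiable ℂ fun z : ℂ => cexp (L * z)).differentiableOn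
  exact (h2.div h1 fun z hz => hz.2).neg

lemma hf_diff {M P : ℂ → ℂ} {n : ℕ} {τ : ℝ} (hM : DifferentiableOn ℂ M {z | z.re < 1})
    (hP : DifferentiableOn ℂ P {z | z.re < 1}) (hP0 : ∀ z : ℂ, z.re < 1 → P z ≠ 0) :
    DifferentiableOn ℂ (hf M P n τ) {z | z.re < 1} := by
  unfold hf
  refine DifferentiableOn.mul ((hM.div hP fun z hz => hP0 z hz).neg.pow n) ?_
  exact (by fun_prop : Differentiable ℂ fun z : ℂ => cexp (τ * z)).differentiableOn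

lemma exp_le_max {x c τ : ℝ} (hx0 : 0 ≤ x) (hxc : x ≤ c) : Real.exp (τ * x) ≤ Real.exp (c * max τ 0) := by
  apply Real.exp_le_exp.2
  rcases le_total τ 0 with h | h
  · rw [max_eq_right h]; nlinarith
  · rw [max_eq_left h]; nlinarith

section
variable {M P E : ℂ → ℂ} {L : ℕ} {α β b c a u v X δ : ℝ}

lemma Dat.hf_le (D : Dat M P E L α β b c a u v X δ) {z : ℂ} (h1 : α ≤ z.re) (h2 : z.re ≤ c)
    (h3 : a ≤ z.im) (h4 : z.im ≤ v) (n : ℕ) (τ : ℝ) :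
    ‖hf M P n τ z‖ ≤ X ^ n * Real.exp (c * max τ 0) := by
  unfold hf
  have hP0 := D.hP0 z (by linarith [D.hc])
  rw [norm_mul, norm_pow, norm_neg, norm_div, Complex.norm_exp]
  have e1 : ‖M z‖ / ‖P z‖ ≤ X := by
    rw [div_le_iff₀ (norm_pos_iff.2 hP0)]
    exact D.quot z h1 h2 h3 h4
  have e2 : ((τ:ℂ) * z).re = τ * z.re := by simp
  rw [e2]
  apply mul_le_mul _ (exp_le_max (by linarith [D.hα]) h2) (Real.exp_pos _).le
    (pow_nonneg D.hX n)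
  exact pow_le_pow_left₀ (by positivity) e1 n

/-- Bound of `K` at a point where `M' ≠ 0`. -/
lemma Kf_norm (z : ℂ) : ‖Kf M P E L z‖ = ‖E z‖ * ‖P z * cexp (L * z)‖ / ‖Mn M P L z‖ := by
  unfold Kf
  rw [norm_neg, norm_div, norm_mul]

/-- `K` is bounded by `4 δ` on the boundary of the big rectangle. -/
lemma Dat.K_le_D (D : Dat M P E L α β b c a u v X δ) {z : ℂ} (hz : z ∈ Bd α c a v) :
    Mn M P L z ≠ 0 ∧ ‖Kf M P E L z‖ ≤ 4 * δ := by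
  have hpi := Real.pi_pos
  have hα := D.hα
  have hαβ := D.hαβ
  have hβb := D.hβb
  have hbc := D.hbc
  have hδ := D.hδ
  have huv := D.huv
  have hu := D.hu
  rcases hz with ⟨⟨h1, h2⟩, h3 | h3⟩ | ⟨⟨h1, h2⟩, h3 | h3⟩
  · obtain ⟨h4, h5⟩ := D.hor z h1 h2 (Or.inl h3)
    refine ⟨h4, ?_⟩
    rw [Kf_norm, div_le_iff₀ (norm_pos_iff.2 h4)]
    have := D.Ea z (by linarith) h2 h3
    calc ‖E z‖ * ‖P z * cexp (L * z)‖ ≤ δ * ‖Mn M P L z‖ :=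
          mul_le_mul this h5 (norm_nonneg _) hδ
      _ ≤ 4 * δ * ‖Mn M P L z‖ := by nlinarith [norm_nonneg (Mn M P L z), mul_nonneg hδ (norm_nonneg (Mn M P L z))]
  · obtain ⟨h4, h5⟩ := D.hor z h1 h2 (Or.inr (Or.inr h3))
    refine ⟨h4, ?_⟩
    rw [Kf_norm, div_le_iff₀ (norm_pos_iff.2 h4)]
    have := D.Ev z (by linarith) h2 h3
    calc ‖E z‖ * ‖P z * cexp (L * z)‖ ≤ δ * ‖Mn M P L z‖ :=
          mul_le_mul this h5 (norm_nonneg _) hδ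
      _ ≤ 4 * δ * ‖Mn M P L z‖ := by nlinarith [norm_nonneg (Mn M P L z), mul_nonneg hδ (norm_nonneg (Mn M P L z))]
  · obtain ⟨h4, h5⟩ := D.left z h3 h1 h2
    refine ⟨h4, ?_⟩
    rw [Kf_norm, div_le_iff₀ (norm_pos_iff.2 h4)]
    nlinarith [norm_nonneg (Mn M P L z), mul_nonneg hδ (norm_nonneg (Mn M P L z))]
  · obtain ⟨h4, h5⟩ := D.band z (by linarith) h3.le h1 h2
    refine ⟨h4, ?_⟩
    rw [Kf_norm, div_le_iff₀ (norm_pos_iff.2 h4)]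
    have := D.Ec z h3 h1 h2
    calc ‖E z‖ * ‖P z * cexp (L * z)‖ ≤ δ * (2 * ‖Mn M P L z‖) :=
          mul_le_mul this h5 (norm_nonneg _) hδ
      _ ≤ 4 * δ * ‖Mn M P L z‖ := by nlinarith [norm_nonneg (Mn M P L z), mul_nonneg hδ (norm_nonneg (Mn M P L z))]

/-- `K` is bounded by `4 δ` on the boundary of the low rectangle. -/
lemma Dat.K_le_L (D : Dat M P E L α β b c a u v X δ) {z : ℂ} (hz : z ∈ Bd α β a u) :
    Mn M P L z ≠ 0 ∧ ‖Kf M P E L z‖ ≤ 4 * δ := by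
  have hpi := Real.pi_pos
  have hα := D.hα
  have hαβ := D.hαβ
  have hβb := D.hβb
  have hbc := D.hbc
  have hδ := D.hδ
  have huv := D.huv
  have hu := D.hu
  rcases hz with ⟨⟨h1, h2⟩, h3 | h3⟩ | ⟨⟨h1, h2⟩, h3 | h3⟩
  · obtain ⟨h4, h5⟩ := D.hor z h1 (by linarith) (Or.inl h3)
    refine ⟨h4, ?_⟩
    rw [Kf_norm, div_le_iff₀ (norm_pos_iff.2 h4)]
    have := D.Ea z (by linarith) (by linarith) h3
    calc ‖E z‖ * ‖P z * cexp (L * z)‖ ≤ δ * ‖Mn M P L z‖ :=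
          mul_le_mul this h5 (norm_nonneg _) hδ
      _ ≤ 4 * δ * ‖Mn M P L z‖ := by nlinarith [norm_nonneg (Mn M P L z), mul_nonneg hδ (norm_nonneg (Mn M P L z))]
  · obtain ⟨h4, h5⟩ := D.hor z h1 (by linarith) (Or.inr (Or.inl h3))
    refine ⟨h4, ?_⟩
    rw [Kf_norm, div_le_iff₀ (norm_pos_iff.2 h4)]
    have := D.El z (by linarith) h2 (by linarith) h3.le
    calc ‖E z‖ * ‖P z * cexp (L * z)‖ ≤ (2 * δ) * ‖Mn M P L z‖ :=
          mul_le_mul this h5 (norm_nonneg _) (by linarith)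
      _ ≤ 4 * δ * ‖Mn M P L z‖ := by nlinarith [norm_nonneg (Mn M P L z), mul_nonneg hδ (norm_nonneg (Mn M P L z))]
  · obtain ⟨h4, h5⟩ := D.left z h3 h1 (by linarith)
    refine ⟨h4, ?_⟩
    rw [Kf_norm, div_le_iff₀ (norm_pos_iff.2 h4)]
    nlinarith [norm_nonneg (Mn M P L z), mul_nonneg hδ (norm_nonneg (Mn M P L z))]
  · obtain ⟨h4, h5⟩ := D.band z h3.ge (by linarith) h1 (by linarith)
    refine ⟨h4, ?_⟩
    rw [Kf_norm, div_le_iff₀ (norm_pos_iff.2 h4)]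
    have := D.El z (by linarith) h3.le h1 h2
    calc ‖E z‖ * ‖P z * cexp (L * z)‖ ≤ (2 * δ) * (2 * ‖Mn M P L z‖) :=
          mul_le_mul this h5 (norm_nonneg _) (by linarith)
      _ = 4 * δ * ‖Mn M P L z‖ := by ring

/-- `M' ≠ 0` on the boundary of the new box. -/
lemma Dat.ne_N (D : Dat M P E L α β b c a u v X δ) {z : ℂ} (hz : z ∈ Bd α β u v) :
    Mn M P L z ≠ 0 := by
  have hpi := Real.pi_pos
  have hα := D.hα
  have hαβ := D.hαβ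
  have hβb := D.hβb
  have hbc := D.hbc
  have huv := D.huv
  have hu := D.hu
  rcases hz with ⟨⟨h1, h2⟩, h3 | h3⟩ | ⟨⟨h1, h2⟩, h3 | h3⟩
  · exact (D.hor z h1 (by linarith) (Or.inr (Or.inl h3))).1
  · exact (D.hor z h1 (by linarith) (Or.inr (Or.inr h3))).1
  · exact (D.left z h3 (by linarith) h2).1
  · exact (D.band z h3.ge (by linarith) (by linarith) h2).1

lemma Bd_mem {a b c d : ℝ} (hab : a ≤ b) (hcd : c ≤ d) {z : ℂ} (hz : z ∈ Bd a b c d) :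
    a ≤ z.re ∧ z.re ≤ b ∧ c ≤ z.im ∧ z.im ≤ d := by
  obtain ⟨h1, h2⟩ := Bd_sub hab hcd hz
  exact ⟨h1.1, h1.2, h2.1, h2.2⟩

/-- The deformation identity. -/
lemma Dat.deform (D : Dat M P E L α β b c a u v X δ) {Φ : ℂ → ℂ}
    (hΦ : DifferentiableOn ℂ Φ {z | z.re < 1 ∧ Mn M P L z ≠ 0}) {μ : ℂ}
    (h1 : b / 2 ≤ μ.re) (h2 : μ.re ≤ b) (h3 : a + 2 * Real.pi ≤ μ.im)
    (h4 : μ.im ≤ a + 4 * Real.pi) :
    RI α β u v (fun z => Φ z * (z - μ)⁻¹) =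
      RI α c a v (fun z => Φ z * (z - μ)⁻¹) - RI α β a u (fun z => Φ z * (z - μ)⁻¹)
        - 2 * Real.pi * I * Φ μ := by
  have hpi := Real.pi_pos
  have hα := D.hα
  have hαβ := D.hαβ
  have hβb := D.hβb
  have hbc := D.hbc
  have hc := D.hc
  have huv := D.huv
  have hu := D.hu
  have hb : 0 < b := by linarith
  have hneq : ∀ z : ℂ, (z.re ≤ β ∨ z.re = c ∨ z.im = a ∨ z.im = v) → z ≠ μ := by
    rintro z (h | h | h | h) rfl <;> linarith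
  have hcont : ∀ S : Set ℂ, (∀ z ∈ S, z.re < 1 ∧ Mn M P L z ≠ 0 ∧ z ≠ μ) →
      ContinuousOn (fun z => Φ z * (z - μ)⁻¹) S := by
    intro S hS
    refine (hΦ.continuousOn.mono fun z hz => ⟨(hS z hz).1, (hS z hz).2.1⟩).mul ?_
    apply ContinuousOn.inv₀ (by fun_prop)
    intro z hz
    exact sub_ne_zero.2 (hS z hz).2.2
  have c1 : ContinuousOn (fun z => Φ z * (z - μ)⁻¹) (Bd α β a u) := by
    apply hcont
    intro z hz
    obtain ⟨g1, g2, g3, g4⟩ := Bd_mem hαβ.le (by linarith) hz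
    exact ⟨by linarith, (D.K_le_L hz).1, hneq z (Or.inl g2)⟩
  have c2 : ContinuousOn (fun z => Φ z * (z - μ)⁻¹) (Bd α β u v) := by
    apply hcont
    intro z hz
    obtain ⟨g1, g2, g3, g4⟩ := Bd_mem hαβ.le (by linarith) hz
    exact ⟨by linarith, D.ne_N hz, hneq z (Or.inl g2)⟩
  have c3 : ContinuousOn (fun z => Φ z * (z - μ)⁻¹) (Bd α β a v) := by
    apply hcont
    intro z hz
    obtain ⟨g1, g2, g3, g4⟩ := Bd_mem hαβ.le (by linarith) hz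
    refine ⟨by linarith, ?_, hneq z (Or.inl g2)⟩
    rcases hz with ⟨⟨h1, h2⟩, h3 | h3⟩ | ⟨⟨h1, h2⟩, h3 | h3⟩
    · exact (D.hor z h1 (by linarith) (Or.inl h3)).1
    · exact (D.hor z h1 (by linarith) (Or.inr (Or.inr h3))).1
    · exact (D.left z h3 (by linarith) h2).1
    · exact (D.band z h3.ge (by linarith) (by linarith) h2).1
  have c4 : ContinuousOn (fun z => Φ z * (z - μ)⁻¹) (Bd β c a v) := by
    apply hcont
    intro z hz
    obtain ⟨g1, g2, g3, g4⟩ := Bd_mem (by linarith) (by linarith) hz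
    refine ⟨by linarith, (D.band z g1 g2 g3 g4).1, ?_⟩
    rcases hz with ⟨⟨h1, h2⟩, h3 | h3⟩ | ⟨⟨h1, h2⟩, h3 | h3⟩
    · exact hneq z (Or.inr (Or.inr (Or.inl h3)))
    · exact hneq z (Or.inr (Or.inr (Or.inr h3)))
    · exact hneq z (Or.inl h3.le)
    · exact hneq z (Or.inr (Or.inl h3))
  have s1 := RI_split_re hαβ.le (by linarith : β ≤ c) (by linarith : a ≤ v) c3 c4
  have s2 := RI_split_im hαβ.le (by linarith : a ≤ u) huv.le c1 c2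
  have s3 : RI β c a v (fun z => Φ z * (z - μ)⁻¹) = 2 * Real.pi * I * Φ μ := by
    apply RI_cauchyOn (by linarith) (by linarith)
    · apply hΦ.mono
      rintro z ⟨hz1, hz2⟩
      exact ⟨by linarith [hz1.2], (D.band z hz1.1 hz1.2 hz2.1 hz2.2).1⟩
    · refine ⟨⟨?_, ?_⟩, ⟨?_, ?_⟩⟩ <;> linarith
  rw [s1, s2, s3]
  ring

/-- The core estimate. -/
lemma Dat.core (D : Dat M P E L α β b c a u v X δ) {μ : ℂ}
    (h1 : b / 2 ≤ μ.re) (h2 : μ.re ≤ b) (h3 : a + 2 * Real.pi ≤ μ.im)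
    (h4 : μ.im ≤ a + 4 * Real.pi) {d : ℝ} (hd0 : 0 < d) (hd1 : d ≤ b / 4) (hd2 : d ≤ c - b)
    (hd3 : d ≤ 1) (n : ℕ) (τ : ℝ) :
    ‖RI α β u v (fun z => Kf M P E L z * hf M P n τ z * (z - μ)⁻¹) +
      2 * Real.pi * I * (Kf M P E L μ * hf M P n τ μ)‖ ≤
      δ * (16 * (1 + (v - a)) / d) * (X ^ n * Real.exp (c * max τ 0)) := by
  have hpi := Real.pi_gt_three
  have hα := D.hα
  have hαβ := D.hαβ
  have hβb := D.hβb
  have hbc := D.hbc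
  have hc := D.hc
  have huv := D.huv
  have hu := D.hu
  have hδ := D.hδ
  have hb : 0 < b := by linarith
  set Q := X ^ n * Real.exp (c * max τ 0) with hQ
  have hQ0 : 0 ≤ Q := mul_nonneg (pow_nonneg D.hX n) (Real.exp_pos _).le
  have hΦ : DifferentiableOn ℂ (fun z => Kf M P E L z * hf M P n τ z)
      {z | z.re < 1 ∧ Mn M P L z ≠ 0} :=
    (Kf_diff D.hM D.hP D.hE).mul ((hf_diff D.hM D.hP D.hP0).mono fun z hz => hz.1)
  rw [D.deform hΦ h1 h2 h3 h4]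
  rw [show ∀ x y w : ℂ, x - y - w + w = x - y by intros; ring]
  have hdist : ∀ z : ℂ, (z.re ≤ β ∨ z.re = c ∨ z.im = a ∨ z.im = v) → d ≤ ‖z - μ‖ := by
    rintro z (h | h | h | h)
    · calc d ≤ |(z - μ).re| := by
            rw [sub_re, abs_of_nonpos (by linarith)]; linarith
        _ ≤ _ := Complex.abs_re_le_norm _
    · calc d ≤ |(z - μ).re| := by
            rw [sub_re, abs_of_nonneg (by linarith)]; linarith
        _ ≤ _ := Complex.abs_re_le_norm _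
    · calc d ≤ |(z - μ).im| := by
            rw [sub_im, abs_of_nonpos (by linarith)]; linarith
        _ ≤ _ := Complex.abs_im_le_norm _
    · calc d ≤ |(z - μ).im| := by
            rw [sub_im, abs_of_nonneg (by linarith)]; linarith
        _ ≤ _ := Complex.abs_im_le_norm _
  have hinv : ∀ z : ℂ, (z.re ≤ β ∨ z.re = c ∨ z.im = a ∨ z.im = v) → ‖(z - μ)⁻¹‖ ≤ d⁻¹ := by
    intro z hz
    rw [norm_inv]
    exact inv_anti₀ hd0 (hdist z hz)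
  have b1 : ∀ z ∈ Bd α c a v, ‖Kf M P E L z * hf M P n τ z * (z - μ)⁻¹‖ ≤ 4 * δ * Q * d⁻¹ := by
    intro z hz
    obtain ⟨g1, g2, g3, g4⟩ := Bd_mem (by linarith) (by linarith) hz
    rw [norm_mul, norm_mul]
    have k1 := (D.K_le_D hz).2
    have k2 := D.hf_le g1 g2 g3 g4 n τ
    have k3 : ‖(z - μ)⁻¹‖ ≤ d⁻¹ := by
      apply hinv
      rcases hz with ⟨⟨h1, h2⟩, h3 | h3⟩ | ⟨⟨h1, h2⟩, h3 | h3⟩
      · exact Or.inr (Or.inr (Or.inl h3))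
      · exact Or.inr (Or.inr (Or.inr h3))
      · exact Or.inl (by linarith)
      · exact Or.inr (Or.inl h3)
    exact mul_le_mul (mul_le_mul k1 k2 (norm_nonneg _) (by positivity)) k3 (norm_nonneg _)
      (by positivity)
  have b2 : ∀ z ∈ Bd α β a u, ‖Kf M P E L z * hf M P n τ z * (z - μ)⁻¹‖ ≤ 4 * δ * Q * d⁻¹ := by
    intro z hz
    obtain ⟨g1, g2, g3, g4⟩ := Bd_mem hαβ.le (by linarith) hz
    rw [norm_mul, norm_mul]
    have k1 := (D.K_le_L hz).2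
    have k2 := D.hf_le g1 (by linarith) g3 (by linarith) n τ
    have k3 : ‖(z - μ)⁻¹‖ ≤ d⁻¹ := hinv z (Or.inl g2)
    exact mul_le_mul (mul_le_mul k1 k2 (norm_nonneg _) (by positivity)) k3 (norm_nonneg _)
      (by positivity)
  have r1 := RI_norm_le (by linarith : α ≤ c) (by linarith : a ≤ v) b1
  have r2 := RI_norm_le hαβ.le (by linarith : a ≤ u) b2
  have hB : 0 ≤ 4 * δ * Q * d⁻¹ := by positivity
  calc _ ≤ ‖RI α c a v (fun z => Kf M P E L z * hf M P n τ z * (z - μ)⁻¹)‖ +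
        ‖RI α β a u (fun z => Kf M P E L z * hf M P n τ z * (z - μ)⁻¹)‖ := norm_sub_le _ _
    _ ≤ 4 * δ * Q * d⁻¹ * (2 * (c - α) + 2 * (v - a)) + 4 * δ * Q * d⁻¹ * (2 * (β - α) + 2 * (u - a)) :=
        add_le_add r1 r2
    _ ≤ 4 * δ * Q * d⁻¹ * (4 * (1 + (v - a))) := by
        rw [← mul_add]
        apply mul_le_mul_of_nonneg_left _ hB
        linarith
    _ = δ * (16 * (1 + (v - a)) / d) * Q := by
        rw [div_eq_mul_inv]; ring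

end

end Pool.Agent.W2helper26.TR
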