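import Pool.Agent.W2helper26.TR.Prm

/-! One step of the recursion: `RungeStm → StepStm`. -/

set_option autoImplicit false

open Complex Filter Topology Set MeasureTheory

namespace Pool.Agent.W2helper26.TR

lemma Bd_compact {a b c d : ℝ} (hab : a ≤ b) (hcd : c ≤ d) : IsCompact (Bd a b c d) := by
  apply IsCompact.of_isClosed_subset (isCompact_Icc.reProdIm isCompact_Icc) _ (Bd_sub hab hcd)
  unfold Bd
  rw [ofPred_or]
  apply IsClosed.union
  · rw [ofPred_and]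
    apply IsClosed.inter
    · exact isClosed_Icc.preimage Complex.continuous_re
    · rw [ofPred_or]
      exact (isClosed_eq Complex.continuous_im continuous_const).union
        (isClosed_eq Complex.continuous_im continuous_const)
  · rw [ofPred_and]
    apply IsClosed.inter
    · exact isClosed_Icc.preimage Complex.continuous_im
    · rw [ofPred_or]
      exact (isClosed_eq Complex.continuous_re continuous_const).union
        (isClosed_eq Complex.continuous_re continuous_const)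

lemma near_left {E : ℂ → ℂ} (hE : Continuous E) {a u δ : ℝ} (hδ : 0 < δ)
    (h0 : ∀ z : ℂ, z.re = 0 → a ≤ z.im → z.im ≤ u → ‖E z‖ ≤ δ) :
    ∃ ρ : ℝ, 0 < ρ ∧ ∀ z : ℂ, 0 ≤ z.re → z.re ≤ ρ → a ≤ z.im → z.im ≤ u → ‖E z‖ ≤ 2 * δ := by
  have hK : IsCompact (Icc (0:ℝ) 1 ×ℂ Icc a u) := isCompact_Icc.reProdIm isCompact_Icc
  have hU := hK.uniformContinuousOn_of_continuous hE.continuousOn
  rw [Metric.uniformContinuousOn_iff] at hU
  obtain ⟨r, hr, h⟩ := hU δ hδ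
  refine ⟨min (r / 2) 1, by positivity, ?_⟩
  intro z h1 h2 h3 h4
  have h5 : z.re ≤ r / 2 := h2.trans (min_le_left _ _)
  have h6 : z.re ≤ 1 := h2.trans (min_le_right _ _)
  have k1 : z ∈ Icc (0:ℝ) 1 ×ℂ Icc a u := ⟨⟨h1, h6⟩, ⟨h3, h4⟩⟩
  have k2 : (⟨0, z.im⟩ : ℂ) ∈ Icc (0:ℝ) 1 ×ℂ Icc a u := ⟨⟨le_rfl, zero_le_one⟩, ⟨h3, h4⟩⟩
  have hd : dist z ⟨0, z.im⟩ < r := by
    rw [dist_eq_norm]
    have : z - ⟨0, z.im⟩ = (z.re : ℂ) := by apply Complex.ext <;> simp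
    rw [this, Complex.norm_real, Real.norm_of_nonneg h1]
    linarith
  have k3 := h z k1 _ k2 hd
  have k4 := h0 ⟨0, z.im⟩ rfl h3 h4
  rw [dist_eq_norm] at k3
  calc ‖E z‖ = ‖(E z - E ⟨0, z.im⟩) + E ⟨0, z.im⟩‖ := by rw [sub_add_cancel]
    _ ≤ ‖E z - E ⟨0, z.im⟩‖ + ‖E ⟨0, z.im⟩‖ := norm_add_le _ _
    _ ≤ 2 * δ := by linarith

lemma ak_succ (k : ℕ) : ak (k + 1) = 2 * ak k := by
  unfold ak; rw [show k + 1 + 8 = (k + 8) + 1 by ring, pow_succ]; ring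

lemma ak_ge (k : ℕ) : 256 * (2 * Real.pi) ≤ ak k := by
  unfold ak
  have : (256:ℝ) ≤ 2 ^ (k + 8) := by
    rw [pow_add]
    have := one_le_pow₀ (by norm_num : (1:ℝ) ≤ 2) (n := k)
    norm_num
    linarith
  have hpi := Real.pi_pos
  nlinarith

lemma qk_pos (k : ℕ) : 0 < qk k := by unfold qk; positivity

lemma qk_ak (k : ℕ) : 402 ≤ qk k * ak k := by
  have : qk k * ak k = 128 * Real.pi := by
    unfold qk ak
    have h1 : (2:ℝ) ^ (k + 8) = 2 ^ (k + 2) * 64 := by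
      rw [show k + 8 = (k + 2) + 6 by ring, pow_add]; norm_num
    rw [h1]
    have h2 : ((1:ℝ) / 2) ^ (k + 2) * 2 ^ (k + 2) = 1 := by
      rw [← mul_pow]; norm_num
    linear_combination (128 * Real.pi) * h2
  rw [this]
  have := Real.pi_gt_d4
  linarith

lemma ak_int (k : ℕ) : ak k = 2 * Real.pi * ((2 ^ (k + 8) : ℕ) : ℝ) := by
  unfold ak; push_cast; ring

lemma im_le_norm_one_sub (z : ℂ) : z.im ≤ ‖1 - z‖ := by
  have := Complex.abs_im_le_norm (1 - z)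
  simp at this
  exact (le_abs_self _).trans this

section
variable {k : ℕ} {s : Sta} {β X δ Λ : ℝ} {L : ℕ} {E : ℂ → ℂ}

/-- lower bound of `P e^{Lz}` -/
lemma T_lower {q R : ℝ} (hq : 0 < q) {z : ℂ} (hR : ‖z‖ ≤ R) (h8 : 8 * R ≤ 64 * Real.exp (L * β))
    (hqz : 402 ≤ q * ‖1 - z‖) (hre : z.re < 1) (hX : 1 ≤ 64 * Real.exp (L * β)) :
    5 * Real.exp (L * (z.re - β)) ≤
      ‖Pf q (64 * Real.exp (L * β)) z * cexp (L * z)‖ := by
  set X := 64 * Real.exp (L * β) with hXd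
  have hX0 : 0 < X := by positivity
  have h1 : ‖(X:ℂ) - z‖ ≤ 9 / 8 * X := by
    refine (norm_sub_le _ _).trans ?_
    rw [Complex.norm_real, Real.norm_of_nonneg hX0.le]
    linarith
  have h2 : 0 < ‖(X:ℂ) - z‖ := norm_pos_iff.2 (X_sub_ne hX hre)
  rw [norm_mul, Pf_norm hq, norm_cexp_nat, mul_sub, Real.exp_sub]
  have h3 : Real.exp (L * z.re) / Real.exp (L * β) = 64 / X * Real.exp (L * z.re) := by
    rw [hXd]; field_simp
  rw [h3, div_mul_eq_mul_div (q * ‖1 - z‖), le_div_iff₀ h2]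
  have h4 : 0 < Real.exp (L * z.re) := Real.exp_pos _
  have h5 : 5 * (64 / X * Real.exp (L * z.re)) * ‖(X:ℂ) - z‖ ≤
      5 * (64 / X * Real.exp (L * z.re)) * (9 / 8 * X) :=
    mul_le_mul_of_nonneg_left h1 (by positivity)
  have h6 : 5 * (64 / X * Real.exp (L * z.re)) * (9 / 8 * X) = 360 * Real.exp (L * z.re) := by
    field_simp; ring
  rw [h6] at h5
  refine h5.trans ?_
  exact mul_le_mul_of_nonneg_right (by linarith) h4.le

/-- upper bound of `M` -/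
lemma M_upper (hs : Inv k s) {z : ℂ} (h0 : 0 ≤ z.re) (h1 : z.re < 1) :
    ‖s.M z‖ ≤ 3 / 2 * Real.exp (s.ℓ * z.re) := by
  have h := hs.m2 z h0 h1
  have he : 1 ≤ Real.exp (s.ℓ * z.re) := Real.one_le_exp (by positivity)
  have hp : (0:ℝ) < (1 / 2) ^ (k + 1) := by positivity
  calc ‖s.M z‖ = ‖(s.M z - 1) + 1‖ := by rw [sub_add_cancel]
    _ ≤ ‖s.M z - 1‖ + ‖(1:ℂ)‖ := norm_add_le _ _
    _ ≤ _ := by
      rw [norm_one]
      nlinarith

lemma M_lower (hs : Inv k s) {z : ℂ} (h0 : 0 ≤ z.re) (h1 : z.re < 1)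
    (h2 : Real.exp (s.ℓ * z.re) ≤ 16 / 15) : 7 / 15 ≤ ‖s.M z‖ := by
  have h := hs.m2 z h0 h1
  have hp : (0:ℝ) < (1 / 2) ^ (k + 1) := by positivity
  have he : 0 < Real.exp (s.ℓ * z.re) := Real.exp_pos _
  have : (1:ℝ) = ‖(1:ℂ)‖ := norm_one.symm
  have h3 : ‖(1:ℂ)‖ ≤ ‖s.M z‖ + ‖s.M z - 1‖ := by
    calc ‖(1:ℂ)‖ = ‖s.M z - (s.M z - 1)‖ := by congr 1; ring
      _ ≤ _ := norm_sub_le _ _
  nlinarith

lemma norm_le_of_box {z : ℂ} {v : ℝ} (h0 : 0 ≤ z.re) (h1 : z.re ≤ 1) (h2 : 0 ≤ z.im)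
    (h3 : z.im ≤ v) : ‖z‖ ≤ 1 + v ∧ ‖1 - z‖ ≤ 1 + v := by
  constructor
  · refine (Complex.norm_le_abs_re_add_abs_im z).trans ?_
    rw [abs_of_nonneg h0, abs_of_nonneg h2]
    linarith
  · refine (Complex.norm_le_abs_re_add_abs_im (1 - z)).trans ?_
    simp only [Complex.sub_re, Complex.one_re, Complex.sub_im, Complex.one_im, zero_sub, abs_neg]
    rw [abs_of_nonneg h2, abs_of_nonneg (by linarith : 0 ≤ 1 - z.re)]
    linarith

/-- the choice made in one step -/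
structure Ch (k : ℕ) (s : Sta) (β δ Λ : ℝ) (L : ℕ) (E : ℂ → ℂ) : Prop where
  hβ0 : 0 < β
  hβb : β < s.b / 4
  hℓL : s.ℓ ≤ L
  hL1 : 1 ≤ L
  hc : β + Real.log 2 / L ≤ s.c
  hexp : Real.exp (s.ℓ * (β + Real.log 2 / L)) ≤ 16 / 15
  h8 : 8 * (1 + (ak (k + 1) + 4 * Real.pi)) ≤ 64 * Real.exp (L * β)
  ht1 : (1 + (1 + (ak (k + 1) + 4 * Real.pi))) * Real.exp (-(L * (β / 2))) ≤ 1
  ht2 : Λ * ((1 + (1 + (ak (k + 1) + 4 * Real.pi))) * Real.exp (-(L * (β / 2)))) ≤ δ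
  ht3 : Real.exp (-(L * (s.b / 4))) * Real.exp (s.ℓ * (s.b / 4)) ≤ δ
  hδ : 0 < δ
  hδ1 : δ ≤ 1
  hE : Differentiable ℂ E
  Ea : ∀ z : ℂ, 0 ≤ z.re → z.re ≤ s.c → z.im = ak k → ‖E z‖ ≤ δ
  Ev : ∀ z : ℂ, 0 ≤ z.re → z.re ≤ s.c → z.im = ak (k + 1) + 4 * Real.pi → ‖E z‖ ≤ δ
  Ec : ∀ z : ℂ, z.re = s.c → ak k ≤ z.im → z.im ≤ ak (k + 1) + 4 * Real.pi → ‖E z‖ ≤ δ
  El : ∀ z : ℂ, 0 ≤ z.re → z.re ≤ β → ak k ≤ z.im → z.im ≤ ak (k + 1) + 2 * Real.pi →
    ‖E z‖ ≤ 2 * δ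
  EN : ∀ z : ℂ, s.b / 2 ≤ z.re → z.re ≤ s.b → ak k + 2 * Real.pi ≤ z.im →
    z.im ≤ ak k + 4 * Real.pi → ‖E z - 1‖ ≤ δ
  hΛ : ∀ z : ℂ, 0 ≤ z.re → z.re ≤ s.c → ak k ≤ z.im → z.im ≤ ak (k + 1) + 4 * Real.pi →
    ‖E z‖ ≤ Λ

lemma Ch.X64 (h : Ch k s β δ Λ L E) : 64 ≤ 64 * Real.exp (L * β) := by
  have : 1 ≤ Real.exp (L * β) := Real.one_le_exp (mul_nonneg (Nat.cast_nonneg _) h.hβ0.le)
  linarith

lemma Ch.expℓ (h : Ch k s β δ Λ L E) {x : ℝ} (hx : x ≤ β + Real.log 2 / L) :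
    Real.exp (s.ℓ * x) ≤ 16 / 15 := by
  refine le_trans (Real.exp_le_exp.2 ?_) h.hexp
  exact mul_le_mul_of_nonneg_left hx (Nat.cast_nonneg _)

lemma Ch.L0 (h : Ch k s β δ Λ L E) : 0 ≤ Real.log 2 / (L:ℝ) :=
  div_nonneg (Real.log_nonneg (by norm_num)) (Nat.cast_nonneg _)

/-- in the band -/
lemma Ch.TM (h : Ch k s β δ Λ L E) (hs : Inv k s) {z : ℂ} (h1 : β ≤ z.re) (h2 : z.re ≤ s.c)
    (h3 : ak k ≤ z.im) (h4 : z.im ≤ ak (k + 1) + 4 * Real.pi) :
    5 * Real.exp (L * (z.re - β)) ≤ ‖Pf (qk k) (64 * Real.exp (L * β)) z * cexp (L * z)‖ ∧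
      ‖s.M z‖ ≤ 8 / 5 * Real.exp (s.ℓ * (z.re - β)) := by
  have hβ0 := h.hβ0
  have hc := hs.hc
  have hak := ak_ge k
  have hpi := Real.pi_pos
  obtain ⟨n1, n2⟩ := norm_le_of_box (by linarith : 0 ≤ z.re) (by linarith) (by linarith) h4
  constructor
  · apply T_lower (qk_pos k) n1 h.h8 _ (by linarith) (by linarith [h.X64])
    have := im_le_norm_one_sub z
    refine (qk_ak k).trans (mul_le_mul_of_nonneg_left (by linarith) (qk_pos k).le)
  · refine (M_upper hs (by linarith) (by linarith)).trans ?_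
    have e : (s.ℓ:ℝ) * z.re = s.ℓ * β + s.ℓ * (z.re - β) := by ring
    rw [e, Real.exp_add]
    have k1 : Real.exp (s.ℓ * β) ≤ 16 / 15 := h.expℓ (by linarith [h.L0])
    have k2 : 0 < Real.exp (s.ℓ * (z.re - β)) := Real.exp_pos _
    nlinarith

lemma Ch.dat (h : Ch k s β δ Λ L E) (hs : Inv k s) :
    Dat s.M (Pf (qk k) (64 * Real.exp (L * β))) E L (β / 2) β s.b s.c (ak k)
      (ak (k + 1) + 2 * Real.pi) (ak (k + 1) + 4 * Real.pi) (64 * Real.exp (L * β)) δ := by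
  have hβ0 := h.hβ0
  have hβb := h.hβb
  have hc := hs.hc
  have hbc := hs.hbc
  have hak := ak_ge k
  have hak2 := ak_succ k
  have hpi := Real.pi_pos
  have hq := qk_pos k
  have hX64 := h.X64
  have hℓL : (s.ℓ:ℝ) ≤ L := by exact_mod_cast h.hℓL
  set X := 64 * Real.exp (L * β) with hX
  have band0 : ∀ z : ℂ, β ≤ z.re → z.re ≤ s.c → ak k ≤ z.im → z.im ≤ ak (k + 1) + 4 * Real.pi →
      17 / 25 * ‖Pf (qk k) X z * cexp (L * z)‖ ≤ ‖Mn s.M (Pf (qk k) X) L z‖ ∧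
      5 * Real.exp (L * (z.re - β)) ≤ ‖Pf (qk k) X z * cexp (L * z)‖ := by
    intro z h1 h2 h3 h4
    obtain ⟨k1, k2⟩ := h.TM hs h1 h2 h3 h4
    have k3 : Real.exp (s.ℓ * (z.re - β)) ≤ Real.exp (L * (z.re - β)) :=
      Real.exp_le_exp.2 (mul_le_mul_of_nonneg_right hℓL (by linarith))
    refine ⟨?_, k1⟩
    unfold Mn
    have k4 : ‖Pf (qk k) X z * cexp (L * z)‖ ≤
        ‖s.M z + Pf (qk k) X z * cexp (L * z)‖ + ‖s.M z‖ := by
      calc ‖Pf (qk k) X z * cexp (L * z)‖ =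
          ‖(s.M z + Pf (qk k) X z * cexp (L * z)) - s.M z‖ := by congr 1; ring
        _ ≤ _ := norm_sub_le _ _
    linarith
  refine ⟨by linarith, by linarith, hβb, hbc, by linarith, by linarith, by linarith, by linarith,
    by linarith, h.hδ.le, hs.hM, Pf_diff (by linarith), fun z hz => Pf_ne hq (by linarith) hz,
    h.hE, ?_, ?_, ?_, ?_, ?_, h.Ea, h.Ev, h.Ec, h.El⟩
  · -- hor
    intro z h1 h2 h3
    have hz1 : z.re < 1 := by linarith
    have hz0 : 0 ≤ z.re := by linarith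
    have : ∃ m : ℕ, z.im = 2 * Real.pi * m := by
      rcases h3 with h3 | h3 | h3
      · exact ⟨2 ^ (k + 8), by rw [h3, ak_int]⟩
      · refine ⟨2 ^ (k + 1 + 8) + 1, ?_⟩
        rw [h3, ak_int]; push_cast; ring
      · refine ⟨2 ^ (k + 1 + 8) + 2, ?_⟩
        rw [h3, ak_int]; push_cast; ring
    obtain ⟨m, hm⟩ := this
    obtain ⟨m1, m2⟩ := hs.m3 z hz0 hz1 ⟨m, hm⟩
    obtain ⟨t1, t2⟩ := T_quad hq (by linarith : 1 ≤ X) hz1 (L := L) hm
    exact norm_le_add_of_quad m1 m2 t1 t2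
  · -- band
    intro z h1 h2 h3 h4
    obtain ⟨k1, k2⟩ := band0 z h1 h2 h3 h4
    have : 0 < Real.exp (L * (z.re - β)) := Real.exp_pos _
    refine ⟨fun h0 => ?_, by linarith⟩
    rw [h0, norm_zero] at k1
    linarith
  · -- left
    intro z h1 h2 h3
    have hz1 : z.re < 1 := by linarith
    have hz0 : 0 ≤ z.re := by linarith
    obtain ⟨n1, n2⟩ := norm_le_of_box hz0 hz1.le (by linarith) h3
    have hM := M_lower hs hz0 hz1 (h.expℓ (by linarith [h.L0]))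
    have hXz : 7 / 8 * X ≤ ‖(X:ℂ) - z‖ := by
      have := norm_sub_norm_le (X:ℂ) z
      rw [Complex.norm_real, Real.norm_of_nonneg (by linarith : 0 ≤ X)] at this
      have := h.h8
      linarith
    have hXp : 0 < ‖(X:ℂ) - z‖ := by linarith
    have hq4 : qk k ≤ 1 / 4 := by
      unfold qk
      calc ((1:ℝ) / 2) ^ (k + 2) ≤ (1 / 2) ^ 2 :=
            pow_le_pow_of_le_one (by norm_num) (by norm_num) (by omega)
        _ = 1 / 4 := by norm_num
    have hT : ‖Pf (qk k) X z * cexp (L * z)‖ ≤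
        (1 + (1 + (ak (k + 1) + 4 * Real.pi))) * Real.exp (-(L * (β / 2))) / 224 := by
      rw [norm_mul, Pf_norm hq, norm_cexp_nat, h1, div_mul_eq_mul_div, div_le_iff₀ hXp]
      have e1 : Real.exp (L * (β / 2)) = X / 64 * Real.exp (-(L * (β / 2))) := by
        rw [hX, show (64 * Real.exp (L * β) / 64) = Real.exp (L * β) by ring, ← Real.exp_add]
        congr 1; ring
      rw [e1]
      have e2 : 0 < Real.exp (-(L * (β / 2))) := Real.exp_pos _
      set e := Real.exp (-(L * (β / 2)))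
      set v := ak (k + 1) + 4 * Real.pi
      have hv : 0 < 1 + v := by linarith [norm_nonneg z]
      calc qk k * ‖1 - z‖ * (X / 64 * e) ≤ 1 / 4 * (1 + v) * (X / 64 * e) := by
            apply mul_le_mul_of_nonneg_right _ (by positivity)
            exact mul_le_mul hq4 n2 (norm_nonneg _) (by norm_num)
        _ ≤ (1 + (1 + v)) * e / 224 * (7 / 8 * X) := by
            have hX0 : 0 < X := by linarith
            have : 0 < X * e := by positivity
            nlinarith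
        _ ≤ _ := mul_le_mul_of_nonneg_left hXz (by positivity)
    have hT1 : ‖Pf (qk k) X z * cexp (L * z)‖ ≤ 1 / 224 := by linarith [h.ht1]
    have hMn : 2 / 5 ≤ ‖Mn s.M (Pf (qk k) X) L z‖ := by
      unfold Mn
      have k4 : ‖s.M z‖ ≤
          ‖s.M z + Pf (qk k) X z * cexp (L * z)‖ + ‖Pf (qk k) X z * cexp (L * z)‖ := by
        calc ‖s.M z‖ =
            ‖(s.M z + Pf (qk k) X z * cexp (L * z)) - Pf (qk k) X z * cexp (L * z)‖ := by
              congr 1; ring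
          _ ≤ _ := norm_sub_le _ _
      linarith
    refine ⟨fun h0 => ?_, ?_⟩
    · rw [h0, norm_zero] at hMn
      linarith
    · have hE1 := h.hΛ z hz0 (by linarith) h2 h3
      have hΛ0 : 0 ≤ Λ := (norm_nonneg _).trans hE1
      calc ‖E z‖ * ‖Pf (qk k) X z * cexp (L * z)‖ ≤
          Λ * ((1 + (1 + (ak (k + 1) + 4 * Real.pi))) * Real.exp (-(L * (β / 2))) / 224) :=
            mul_le_mul hE1 hT (norm_nonneg _) hΛ0
        _ ≤ δ / 224 := by
            have := h.ht2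
            have e : Λ * ((1 + (1 + (ak (k + 1) + 4 * Real.pi))) * Real.exp (-(L * (β / 2))) / 224)
              = Λ * ((1 + (1 + (ak (k + 1) + 4 * Real.pi))) * Real.exp (-(L * (β / 2)))) / 224 := by
                ring
            rw [e]
            linarith
        _ ≤ δ * (2 / 5) := by linarith [h.hδ]
        _ ≤ _ := mul_le_mul_of_nonneg_left hMn h.hδ.le
  · -- quot
    intro z h1 h2 h3 h4
    have hz1 : z.re < 1 := by linarith
    have hz0 : 0 ≤ z.re := by linarith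
    obtain ⟨n1, n2⟩ := norm_le_of_box hz0 hz1.le (by linarith) h4
    have hm4 := hs.m4 z hz0 h2
    have hX0 : 0 < X := by linarith
    have hXz : ‖(X:ℂ) - z‖ ≤ 9 / 8 * X := by
      refine (norm_sub_le _ _).trans ?_
      rw [Complex.norm_real, Real.norm_of_nonneg hX0.le]
      linarith [h.h8]
    have hXp : 0 < ‖(X:ℂ) - z‖ := norm_pos_iff.2 (X_sub_ne (by linarith) hz1)
    rw [Pf_norm hq, mul_div_assoc', le_div_iff₀ hXp]
    have h402 : 402 ≤ qk k * ‖1 - z‖ := by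
      have := im_le_norm_one_sub z
      exact (qk_ak k).trans (mul_le_mul_of_nonneg_left (by linarith) hq.le)
    calc ‖s.M z‖ * ‖(X:ℂ) - z‖ ≤ (8 / 5 + qk k / 8 * ‖1 - z‖) * (9 / 8 * X) :=
          mul_le_mul hm4 hXz (norm_nonneg _) (by positivity)
      _ ≤ X * (qk k * ‖1 - z‖) := by nlinarith
  · -- near
    intro z h1 h2 h3 h4
    have hβz : β ≤ z.re := by linarith
    obtain ⟨k1, k2⟩ := band0 z hβz (by linarith) (by linarith) (by linarith)
    obtain ⟨-, k3⟩ := h.TM hs hβz (by linarith) (by linarith) (by linarith)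
    have k4 : Real.exp (s.ℓ * (z.re - β)) ≤ δ * Real.exp (L * (z.re - β)) := by
      have e1 : Real.exp (s.ℓ * (z.re - β)) =
          Real.exp (L * (z.re - β)) * Real.exp (-((L - s.ℓ) * (z.re - β))) := by
        rw [← Real.exp_add]; congr 1; ring
      have e2 : Real.exp (-((L - s.ℓ) * (z.re - β))) ≤ Real.exp (-((L - s.ℓ) * (s.b / 4))) := by
        apply Real.exp_le_exp.2
        apply neg_le_neg
        exact mul_le_mul_of_nonneg_left (by linarith) (by linarith)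
      have e3 : Real.exp (-(((L:ℝ) - s.ℓ) * (s.b / 4))) =
          Real.exp (-(L * (s.b / 4))) * Real.exp (s.ℓ * (s.b / 4)) := by
        rw [← Real.exp_add]; congr 1; ring
      rw [e1, mul_comm δ]
      apply mul_le_mul_of_nonneg_left _ (Real.exp_pos _).le
      rw [e3] at e2
      exact e2.trans h.ht3
    have k5 := h.EN z h1 h2 h3 h4
    refine ⟨?_, k5, ?_⟩
    · have : 0 < Real.exp (L * (z.re - β)) := Real.exp_pos _
      have k6 : 17 / 5 * Real.exp (L * (z.re - β)) ≤ ‖Mn s.M (Pf (qk k) X) L z‖ := by linarith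
      calc ‖s.M z‖ ≤ 8 / 5 * (δ * Real.exp (L * (z.re - β))) := by linarith
        _ = δ * (8 / 5 * Real.exp (L * (z.re - β))) := by ring
        _ ≤ δ * (17 / 5 * Real.exp (L * (z.re - β))) :=
            mul_le_mul_of_nonneg_left (by linarith) h.hδ.le
        _ ≤ _ := mul_le_mul_of_nonneg_left k6 h.hδ.le
    · calc ‖E z‖ = ‖(E z - 1) + 1‖ := by rw [sub_add_cancel]
        _ ≤ ‖E z - 1‖ + ‖(1:ℂ)‖ := norm_add_le _ _
        _ ≤ 2 := by rw [norm_one]; linarith [h.hδ1]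

end

end Pool.Agent.W2helper26.TR
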