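import Pool.Agent.W2helper26.TR.Stm2

/-! Parameters of one step of the recursion. -/

set_option autoImplicit false

open Complex Filter Topology Set MeasureTheory

namespace Pool.Agent.W2helper26.TR

lemma tendsto_exp_neg_nat {s : ℝ} (hs : 0 < s) :
    Tendsto (fun L : ℕ => Real.exp (-((L:ℝ) * s))) atTop (𝓝 0) := by
  have h1 : Tendsto (fun L : ℕ => (L:ℝ) * s) atTop atTop :=
    tendsto_natCast_atTop_atTop.atTop_mul_const hs
  exact Real.tendsto_exp_neg_atTop_nhds_zero.comp h1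

lemma choice (b c δ R Λ ρ ε : ℝ) (ℓ : ℕ) (hb : 0 < b) (hbc : b < c) (hδ : 0 < δ)
    (hρ : 0 < ρ) (hε : 0 < ε) :
    ∃ (β : ℝ) (L : ℕ), 0 < β ∧ β < b / 4 ∧ β ≤ ρ ∧ ℓ ≤ L ∧ 1 ≤ L ∧ β + Real.log 2 / L ≤ c ∧
      Real.exp (ℓ * (β + Real.log 2 / L)) ≤ 16 / 15 ∧ 8 * R ≤ 64 * Real.exp (L * β) ∧
      (1 + R) * Real.exp (-(L * (β / 2))) ≤ 1 ∧ Λ * ((1 + R) * Real.exp (-(L * (β / 2)))) ≤ δ ∧
      Real.exp (-(L * (b / 4))) * Real.exp (ℓ * (b / 4)) ≤ δ ∧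
      Real.log (64 * Real.exp (L * β)) / L ≤ ε := by
  obtain ⟨β, hβ0, h1, h2, h3, h4⟩ : ∃ β : ℝ, 0 < β ∧ β < b / 4 ∧ β ≤ ρ ∧
      Real.exp (ℓ * β) < 16 / 15 ∧ β < ε := by
    have e1 : ∀ᶠ β : ℝ in 𝓝[>] 0, β < b / 4 :=
      nhdsWithin_le_nhds (gt_mem_nhds (by positivity))
    have e2 : ∀ᶠ β : ℝ in 𝓝[>] 0, β < ρ := nhdsWithin_le_nhds (gt_mem_nhds hρ)
    have e3 : ∀ᶠ β : ℝ in 𝓝[>] 0, β < ε := nhdsWithin_le_nhds (gt_mem_nhds hε)
    have e4 : ∀ᶠ β : ℝ in 𝓝[>] 0, Real.exp (ℓ * β) < 16 / 15 := by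
      apply nhdsWithin_le_nhds
      have : Tendsto (fun β : ℝ => Real.exp (ℓ * β)) (𝓝 0) (𝓝 (Real.exp (ℓ * 0))) :=
        (by fun_prop : Continuous fun β : ℝ => Real.exp (ℓ * β)).tendsto 0
      rw [mul_zero, Real.exp_zero] at this
      exact this.eventually (gt_mem_nhds (by norm_num))
    have e5 : ∀ᶠ β : ℝ in 𝓝[>] 0, 0 < β := eventually_mem_nhdsWithin
    obtain ⟨β, h1, h2, h3, h4, h5⟩ := (e1.and (e2.and (e3.and (e4.and e5)))).exists
    exact ⟨β, h5, h1, h2.le, h4, h3⟩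
  have t0 : Tendsto (fun L : ℕ => Real.log 2 / (L:ℝ)) atTop (𝓝 0) :=
    tendsto_const_nhds.div_atTop tendsto_natCast_atTop_atTop
  have t1 : Tendsto (fun L : ℕ => β + Real.log 2 / (L:ℝ)) atTop (𝓝 β) := by
    simpa using t0.const_add β
  have t2 : Tendsto (fun L : ℕ => Real.exp (ℓ * (β + Real.log 2 / (L:ℝ)))) atTop
      (𝓝 (Real.exp (ℓ * β))) :=
    (Real.continuous_exp.tendsto _).comp (t1.const_mul _)
  have t3 : Tendsto (fun L : ℕ => 64 * Real.exp ((L:ℝ) * β)) atTop atTop := by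
    apply Tendsto.const_mul_atTop (by norm_num)
    exact Real.tendsto_exp_atTop.comp (tendsto_natCast_atTop_atTop.atTop_mul_const hβ0)
  have t4 : Tendsto (fun L : ℕ => (1 + R) * Real.exp (-((L:ℝ) * (β / 2)))) atTop (𝓝 0) := by
    simpa using (tendsto_exp_neg_nat (by positivity : 0 < β / 2)).const_mul (1 + R)
  have t5 : Tendsto (fun L : ℕ => Λ * ((1 + R) * Real.exp (-((L:ℝ) * (β / 2))))) atTop (𝓝 0) := by
    simpa using t4.const_mul Λ
  have t6 : Tendsto (fun L : ℕ => Real.exp (-((L:ℝ) * (b / 4))) * Real.exp (ℓ * (b / 4))) atTop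
      (𝓝 0) := by
    simpa using (tendsto_exp_neg_nat (by positivity : 0 < b / 4)).mul_const (Real.exp (ℓ * (b / 4)))
  have t7 : Tendsto (fun L : ℕ => Real.log 64 / (L:ℝ) + β) atTop (𝓝 β) := by
    have : Tendsto (fun L : ℕ => Real.log 64 / (L:ℝ)) atTop (𝓝 0) :=
      tendsto_const_nhds.div_atTop tendsto_natCast_atTop_atTop
    simpa using this.add_const β
  have hβc : β < c := by linarith
  obtain ⟨L, h10, h11, h12, h13, h14, h15, h16, h17, h18⟩ := ((eventually_ge_atTop ℓ).and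
    ((eventually_ge_atTop 1).and ((t1.eventually (gt_mem_nhds hβc)).and
    ((t2.eventually (gt_mem_nhds h3)).and ((t3.eventually (eventually_ge_atTop (8 * R))).and
    ((t4.eventually (gt_mem_nhds one_pos)).and ((t5.eventually (gt_mem_nhds hδ)).and
    ((t6.eventually (gt_mem_nhds hδ)).and (t7.eventually (gt_mem_nhds h4)))))))))).exists
  refine ⟨β, L, hβ0, h1, h2, h10, h11, h12.le, h13.le, h14, h15.le, h16.le, h17.le, ?_⟩
  have hL : (0:ℝ) < L := by exact_mod_cast h11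
  rw [Real.log_mul (by norm_num) (Real.exp_pos _).ne', Real.log_exp, add_div,
    mul_div_cancel_left₀ _ hL.ne']
  exact h18.le

lemma Pf_norm {q X : ℝ} (hq : 0 < q) (z : ℂ) :
    ‖Pf q X z‖ = q * ‖1 - z‖ / ‖(X:ℂ) - z‖ := by
  unfold Pf
  rw [norm_div, norm_mul, Complex.norm_real, Real.norm_of_nonneg hq.le]

lemma X_sub_ne {X : ℝ} (hX : 1 ≤ X) {z : ℂ} (hz : z.re < 1) : (X:ℂ) - z ≠ 0 := by
  intro h
  have := congrArg Complex.re h
  simp at this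
  linarith

lemma one_sub_ne {z : ℂ} (hz : z.re < 1) : (1:ℂ) - z ≠ 0 := by
  intro h
  have := congrArg Complex.re h
  simp at this
  linarith

lemma Pf_ne {q X : ℝ} (hq : 0 < q) (hX : 1 ≤ X) {z : ℂ} (hz : z.re < 1) : Pf q X z ≠ 0 := by
  unfold Pf
  refine div_ne_zero (mul_ne_zero ?_ (one_sub_ne hz)) (X_sub_ne hX hz)
  exact_mod_cast hq.ne'

lemma Pf_diff {q X : ℝ} (hX : 1 ≤ X) : DifferentiableOn ℂ (Pf q X) {z | z.re < 1} := by
  unfold Pf
  apply DifferentiableOn.div (by fun_prop) (by fun_prop)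
  intro z hz
  exact X_sub_ne hX hz

lemma norm_one_sub_le {X : ℝ} (hX : 1 ≤ X) {z : ℂ} (hz : z.re < 1) :
    ‖1 - z‖ ≤ ‖(X:ℂ) - z‖ := by
  rw [Complex.norm_def, Complex.norm_def]
  apply Real.sqrt_le_sqrt
  simp only [Complex.normSq_apply, Complex.sub_re, Complex.one_re, Complex.sub_im, Complex.one_im,
    Complex.ofReal_re, Complex.ofReal_im]
  nlinarith

lemma Pf_le {q X : ℝ} (hq : 0 < q) (hX : 1 ≤ X) {z : ℂ} (hz : z.re < 1) : ‖Pf q X z‖ ≤ q := by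
  rw [Pf_norm hq, div_le_iff₀ (norm_pos_iff.2 (X_sub_ne hX hz))]
  exact mul_le_mul_of_nonneg_left (norm_one_sub_le hX hz) hq.le

lemma Pf_quad {q X : ℝ} (hq : 0 < q) (hX : 1 ≤ X) {z : ℂ} (hz : z.re < 1) (hi : 0 ≤ z.im) :
    0 ≤ (Pf q X z).re ∧ (Pf q X z).im ≤ 0 := by
  have hn : 0 < Complex.normSq ((X:ℂ) - z) := Complex.normSq_pos.2 (X_sub_ne hX hz)
  have e : Pf q X z = ((q / Complex.normSq ((X:ℂ) - z) : ℝ) : ℂ) *
      ((1 - z) * (starRingEnd ℂ) ((X:ℂ) - z)) := by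
    unfold Pf
    rw [div_eq_mul_inv, Complex.inv_def]
    push_cast
    field_simp
  have hk : 0 < q / Complex.normSq ((X:ℂ) - z) := by positivity
  rw [e, Complex.re_ofReal_mul, Complex.im_ofReal_mul]
  constructor
  · apply mul_nonneg hk.le
    simp
    nlinarith [mul_self_nonneg z.im]
  · apply mul_nonpos_of_nonneg_of_nonpos hk.le
    simp
    nlinarith

/-- the exponential factor on the lines `Im z ∈ 2πℕ` -/
lemma exp_real {L m : ℕ} {z : ℂ} (hz : z.im = 2 * Real.pi * m) :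
    cexp (L * z) = ((Real.exp (L * z.re) : ℝ) : ℂ) := by
  have : (L:ℂ) * z = ((L * z.re : ℝ) : ℂ) + ((L * m : ℕ) : ℂ) * (2 * Real.pi * I) := by
    apply Complex.ext
    · simp
    · simp [hz]; ring
  rw [this, Complex.exp_add, Complex.exp_nat_mul_two_pi_mul_I, mul_one, Complex.ofReal_exp]

lemma T_quad {q X : ℝ} (hq : 0 < q) (hX : 1 ≤ X) {z : ℂ} (hz : z.re < 1) {L m : ℕ}
    (hi : z.im = 2 * Real.pi * m) :
    0 ≤ (Pf q X z * cexp (L * z)).re ∧ (Pf q X z * cexp (L * z)).im ≤ 0 := by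
  have hi0 : 0 ≤ z.im := by rw [hi]; have := Real.pi_pos; positivity
  obtain ⟨h1, h2⟩ := Pf_quad hq hX hz hi0
  rw [exp_real hi, Complex.re_mul_ofReal, Complex.im_mul_ofReal]
  exact ⟨mul_nonneg h1 (Real.exp_pos _).le, mul_nonpos_of_nonpos_of_nonneg h2 (Real.exp_pos _).le⟩

lemma norm_le_add_of_quad {x y : ℂ} (hx : 1 ≤ x.re) (hx2 : x.im ≤ 0) (hy : 0 ≤ y.re)
    (hy2 : y.im ≤ 0) : x + y ≠ 0 ∧ ‖y‖ ≤ ‖x + y‖ := by
  constructor
  · intro h
    have := congrArg Complex.re h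
    simp at this
    linarith
  · rw [Complex.norm_def, Complex.norm_def]
    apply Real.sqrt_le_sqrt
    simp only [Complex.normSq_apply, Complex.add_re, Complex.add_im]
    nlinarith

lemma norm_cexp_nat (L : ℕ) (z : ℂ) : ‖cexp (L * z)‖ = Real.exp (L * z.re) := by
  rw [Complex.norm_exp]; simp

end Pool.Agent.W2helper26.TR
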