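import Pool.Agent.W2helper26.TR.Core

/-! The transition from one stage to the next. -/

set_option autoImplicit false

open Complex Filter Topology Set MeasureTheory

namespace Pool.Agent.W2helper26.TR

/-- integral over the boundary of the box `[b/2,b] × [a+2π, a+4π]`. -/
noncomputable def RN (b a : ℝ) (f : ℂ → ℂ) : ℂ :=
  RI (b / 2) b (a + 2 * Real.pi) (a + 4 * Real.pi) f

/-- the boundary of the box. -/
def BN (b a : ℝ) : Set ℂ := Bd (b / 2) b (a + 2 * Real.pi) (a + 4 * Real.pi)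

/-- the closed box. -/
def CN (b a : ℝ) : Set ℂ := Icc (b / 2) b ×ℂ Icc (a + 2 * Real.pi) (a + 4 * Real.pi)

/-- `g(τ) = (1/2πi) ∮ G(z) e^{τz} dz`. -/
noncomputable def gf (b a : ℝ) (G : ℂ → ℂ) (τ : ℝ) : ℂ :=
  (2 * Real.pi * I)⁻¹ * RN b a (fun z => G z * cexp (τ * z))

/-- the density of the next stage. -/
noncomputable def Gn (b a : ℝ) (G M P E : ℂ → ℂ) (L : ℕ) (z : ℂ) : ℂ :=
  Kf M P E L z * ((2 * Real.pi * I)⁻¹ * RN b a (fun μ => G μ * (z - μ)⁻¹))

section
variable {M P E G : ℂ → ℂ} {L : ℕ} {α β b c a u v X δ : ℝ}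

lemma BN_mem (hb : 0 < b) {μ : ℂ} (hμ : μ ∈ BN b a) :
    b / 2 ≤ μ.re ∧ μ.re ≤ b ∧ a + 2 * Real.pi ≤ μ.im ∧ μ.im ≤ a + 4 * Real.pi :=
  Bd_mem (by linarith) (by linarith [Real.pi_pos]) hμ

lemma Dat.b_pos (D : Dat M P E L α β b c a u v X δ) : 0 < b := by
  linarith [D.hα, D.hαβ, D.hβb]

lemma Dat.au (D : Dat M P E L α β b c a u v X δ) : a < u := by
  linarith [D.hu, Real.pi_pos]

/-- a point of the closed new box is not in the closed old box -/
lemma Dat.ne_mu (D : Dat M P E L α β b c a u v X δ) {z μ : ℂ} (hz : z.re ≤ β) (hμ : b / 2 ≤ μ.re) :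
    z ≠ μ := by
  rintro rfl
  linarith [D.hα, D.hαβ, D.hβb]

lemma cont_inv_pair {S T : Set ℂ} (h : ∀ z ∈ S, ∀ μ ∈ T, z ≠ μ) :
    ContinuousOn (fun p : ℂ × ℂ => (p.1 - p.2)⁻¹) (S ×ˢ T) := by
  apply ContinuousOn.inv₀ (by fun_prop)
  rintro ⟨z, μ⟩ ⟨hz, hμ⟩
  exact sub_ne_zero.2 (h z hz μ hμ)

/-- The Cauchy transform is continuous. -/
lemma cauchy_cont (hb : 0 < b) (hG : ContinuousOn G (BN b a)) {S : Set ℂ}
    (h : ∀ z ∈ S, z.re < b / 2) :
    ContinuousOn (fun z => RN b a (fun μ => G μ * (z - μ)⁻¹)) S := by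
  unfold RN
  apply RI_contOn (by linarith) (by linarith [Real.pi_pos])
    (K := fun z μ => G μ * (z - μ)⁻¹)
  apply ContinuousOn.mul
  · exact hG.comp continuousOn_snd (fun p hp => hp.2)
  · apply cont_inv_pair
    rintro z hz μ hμ rfl
    have := (BN_mem hb hμ).1
    linarith [h z hz]

lemma Dat.K_cont (D : Dat M P E L α β b c a u v X δ) :
    ContinuousOn (Kf M P E L) (Bd α β u v) := by
  refine (Kf_diff D.hM D.hP D.hE).continuousOn.mono fun z hz => ⟨?_, D.ne_N hz⟩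
  have := (Bd_mem D.hαβ.le D.huv.le hz).2.1
  linarith [D.hαβ, D.hβb, D.hbc, D.hc, D.hα]

lemma Dat.re_lt (D : Dat M P E L α β b c a u v X δ) {z : ℂ} (hz : z ∈ Bd α β u v) :
    z.re < b / 2 := by
  have := (Bd_mem D.hαβ.le D.huv.le hz).2.1
  linarith [D.hαβ, D.hβb, D.hbc, D.hc, D.hα]

lemma Dat.Gn_cont (D : Dat M P E L α β b c a u v X δ) (hG : ContinuousOn G (BN b a)) :
    ContinuousOn (Gn b a G M P E L) (Bd α β u v) := by
  unfold Gn
  exact D.K_cont.mul (continuousOn_const.mul (cauchy_cont D.b_pos hG fun z hz => D.re_lt hz))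

/-- Fubini. -/
lemma Dat.swap (D : Dat M P E L α β b c a u v X δ) (hG : ContinuousOn G (BN b a)) {Ψ : ℂ → ℂ}
    (hΨ : ContinuousOn Ψ (Bd α β u v)) :
    RI α β u v (fun z => Gn b a G M P E L z * Ψ z) =
      (2 * Real.pi * I)⁻¹ * RN b a (fun μ => G μ *
        RI α β u v (fun z => Kf M P E L z * Ψ z * (z - μ)⁻¹)) := by
  have e1 : (fun z => Gn b a G M P E L z * Ψ z) = fun z => (2 * Real.pi * I)⁻¹ *
      RN b a (fun μ => G μ * (Kf M P E L z * Ψ z * (z - μ)⁻¹)) := by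
    funext z
    unfold Gn RN
    have : (fun μ => G μ * (Kf M P E L z * Ψ z * (z - μ)⁻¹)) = fun μ =>
        (Kf M P E L z * Ψ z) * (G μ * (z - μ)⁻¹) := by
      funext μ; ring
    rw [this, RI_const_mul]
    ring
  rw [e1, RI_const_mul]
  congr 1
  unfold RN
  rw [RI_swap D.hαβ.le D.huv.le (by linarith [D.b_pos]) (by linarith [Real.pi_pos])
    (K := fun z μ => G μ * (Kf M P E L z * Ψ z * (z - μ)⁻¹))]
  · congr 1
    funext μ
    rw [RI_const_mul]
  · apply ContinuousOn.mul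
    · exact hG.comp continuousOn_snd (fun p hp => hp.2)
    · apply ContinuousOn.mul
      · exact (D.K_cont.mul hΨ).comp continuousOn_fst (fun p hp => hp.1)
      · apply cont_inv_pair
        rintro z hz μ hμ rfl
        have := (BN_mem D.b_pos hμ).1
        linarith [D.re_lt hz]

/-- `P ≠ 0`, `re < 1` on the closed new box. -/
lemma Dat.box_re (D : Dat M P E L α β b c a u v X δ) {z : ℂ} (hz : z ∈ Icc α β ×ℂ Icc u v) :
    z.re ≤ β ∧ z.re < 1 := by
  have : z.re ≤ β := hz.1.2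
  exact ⟨this, by linarith [D.hαβ, D.hβb, D.hbc, D.hc, D.hα]⟩

/-- Exactness of the next stage. -/
lemma Dat.exact_next (D : Dat M P E L α β b c a u v X δ) (hG : ContinuousOn G (BN b a)) {Ψ : ℂ → ℂ}
    (hΨ : DifferentiableOn ℂ Ψ (Icc α β ×ℂ Icc u v)) :
    RI α β u v (fun z => Gn b a G M P E L z * (Mn M P L z * Ψ z)) = 0 := by
  have hMn : ContinuousOn (Mn M P L) (Bd α β u v) :=
    (Mn_diff D.hM D.hP).continuousOn.mono fun z hz => by
      show z.re < 1
      exact (D.box_re (Bd_sub D.hαβ.le D.huv.le hz)).2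
  have hΨc : ContinuousOn Ψ (Bd α β u v) := hΨ.continuousOn.mono (Bd_sub D.hαβ.le D.huv.le)
  have hMΨ : ContinuousOn (fun z => Mn M P L z * Ψ z) (Bd α β u v) := hMn.mul hΨc
  rw [D.swap hG hMΨ]
  have : RN b a (fun μ => G μ * RI α β u v (fun z => Kf M P E L z * (Mn M P L z * Ψ z) *
      (z - μ)⁻¹)) = RN b a (fun μ => 0) := by
    unfold RN
    apply RI_congr (by linarith [D.b_pos]) (by linarith [Real.pi_pos])
    intro μ hμ
    have hμ' := BN_mem D.b_pos hμ
    have e : RI α β u v (fun z => Kf M P E L z * (Mn M P L z * Ψ z) * (z - μ)⁻¹) =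
        RI α β u v (fun z => -(E z * (P z * cexp (L * z))) * Ψ z * (z - μ)⁻¹) := by
      apply RI_congr D.hαβ.le D.huv.le
      intro z hz
      have := D.ne_N hz
      unfold Kf
      field_simp
    rw [e, RI_zero D.hαβ.le D.huv.le, mul_zero]
    have h1 : DifferentiableOn ℂ (fun z => -(E z * (P z * cexp (L * z)))) (Icc α β ×ℂ Icc u v) := by
      apply DifferentiableOn.neg
      refine D.hE.differentiableOn.mul ((D.hP.mono fun z hz => (D.box_re hz).2).mul ?_)
      exact (by fun_prop : Differentiable ℂ fun z : ℂ => cexp (L * z)).differentiableOn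
    refine (h1.mul hΨ).mul ?_
    apply DifferentiableOn.inv (by fun_prop)
    intro z hz
    exact sub_ne_zero.2 (D.ne_mu (D.box_re hz).1 hμ'.1)
  rw [this]
  unfold RN RI
  simp

/-- Replace `e^{(nL+τ)z}` by `(-M/P)^n e^{τz}`. -/
lemma Dat.replace (D : Dat M P E L α β b c a u v X δ) {μ : ℂ} (hμ : b / 2 ≤ μ.re) (n : ℕ) (τ : ℝ) :
    RI α β u v (fun z => Kf M P E L z * cexp ((n * L + τ : ℝ) * z) * (z - μ)⁻¹) =
      RI α β u v (fun z => Kf M P E L z * hf M P n τ z * (z - μ)⁻¹) := by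
  have hdM : DifferentiableOn ℂ M (Icc α β ×ℂ Icc u v) := D.hM.mono fun z hz => (D.box_re hz).2
  have hdP : DifferentiableOn ℂ P (Icc α β ×ℂ Icc u v) := D.hP.mono fun z hz => (D.box_re hz).2
  set A : ℂ → ℂ := fun z => -(E z * cexp (L * z)) *
    (∑ i ∈ Finset.range n, cexp (L * z) ^ i * (-(M z / P z)) ^ (n - 1 - i)) * cexp (τ * z) *
      (z - μ)⁻¹ with hA
  have hdA : DifferentiableOn ℂ A (Icc α β ×ℂ Icc u v) := by
    have h1 : DifferentiableOn ℂ (fun z : ℂ => cexp (L * z)) (Icc α β ×ℂ Icc u v) :=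
      (by fun_prop : Differentiable ℂ fun z : ℂ => cexp (L * z)).differentiableOn
    have h2 : DifferentiableOn ℂ (fun z : ℂ => cexp (τ * z)) (Icc α β ×ℂ Icc u v) :=
      (by fun_prop : Differentiable ℂ fun z : ℂ => cexp (τ * z)).differentiableOn
    have h3 : DifferentiableOn ℂ (fun z : ℂ => -(M z / P z)) (Icc α β ×ℂ Icc u v) :=
      (hdM.div hdP fun z hz => D.hP0 z (D.box_re hz).2).neg
    refine (((D.hE.differentiableOn.mul h1).neg.mul ?_).mul h2).mul ?_
    · apply DifferentiableOn.fun_sum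
      intro i _
      exact (h1.pow i).mul (h3.pow _)
    · apply DifferentiableOn.inv (by fun_prop)
      intro z hz
      exact sub_ne_zero.2 (D.ne_mu (D.box_re hz).1 hμ)
  have hcK : ContinuousOn (fun z => Kf M P E L z * hf M P n τ z * (z - μ)⁻¹) (Bd α β u v) := by
    refine (D.K_cont.mul ?_).mul ?_
    · exact ((hf_diff D.hM D.hP D.hP0).continuousOn).mono fun z hz =>
        (D.box_re (Bd_sub D.hαβ.le D.huv.le hz)).2
    · apply ContinuousOn.inv₀ (by fun_prop)
      intro z hz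
      exact sub_ne_zero.2 (D.ne_mu (D.box_re (Bd_sub D.hαβ.le D.huv.le hz)).1 hμ)
  have e : RI α β u v (fun z => Kf M P E L z * cexp ((n * L + τ : ℝ) * z) * (z - μ)⁻¹) =
      RI α β u v (fun z => Kf M P E L z * hf M P n τ z * (z - μ)⁻¹ + A z) := by
    apply RI_congr D.hαβ.le D.huv.le
    intro z hz
    have hz' := D.box_re (Bd_sub D.hαβ.le D.huv.le hz)
    have hne := D.ne_N hz
    have hP0 := D.hP0 z hz'.2
    have hexp : cexp ((n * L + τ : ℝ) * z) = cexp (L * z) ^ n * cexp (τ * z) := by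
      rw [← Complex.exp_nat_mul, ← Complex.exp_add]
      congr 1
      push_cast
      ring
    have hgeo := geom_sum₂_mul (cexp (L * z)) (-(M z / P z)) n
    have hxy : cexp (L * z) - -(M z / P z) = Mn M P L z / P z := by
      unfold Mn; field_simp; ring
    rw [hxy] at hgeo
    have hK : Kf M P E L z = -(E z * (P z * cexp (L * z)) / Mn M P L z) := rfl
    have hh : hf M P n τ z = (-(M z / P z)) ^ n * cexp (τ * z) := rfl
    have hxn : cexp (L * z) ^ n = (-(M z / P z)) ^ n +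
        (∑ i ∈ Finset.range n, cexp (L * z) ^ i * (-(M z / P z)) ^ (n - 1 - i)) *
          (Mn M P L z / P z) := by
      rw [hgeo]; ring
    simp only [hA]
    rw [hexp, hxn, hh, hK]
    generalize (∑ i ∈ Finset.range n, cexp (L * z) ^ i * (-(M z / P z)) ^ (n - 1 - i)) = S
    generalize (-(M z / P z)) ^ n = Y
    field_simp
    ring
  rw [e, RI_add D.hαβ.le D.huv.le hcK (hdA.continuousOn.mono (Bd_sub D.hαβ.le D.huv.le)),
    RI_zero D.hαβ.le D.huv.le hdA, add_zero]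

/-- `g'` in terms of the fixed point integrals. -/
lemma Dat.g_formula (D : Dat M P E L α β b c a u v X δ) (hG : ContinuousOn G (BN b a))
    (n : ℕ) (τ : ℝ) :
    (2 * Real.pi * I)⁻¹ * RI α β u v (fun z => Gn b a G M P E L z * cexp ((n * L + τ : ℝ) * z)) =
      (2 * Real.pi * I)⁻¹ * ((2 * Real.pi * I)⁻¹ * RN b a (fun μ => G μ *
        RI α β u v (fun z => Kf M P E L z * hf M P n τ z * (z - μ)⁻¹))) := by
  rw [D.swap hG (Ψ := fun z => cexp ((n * L + τ : ℝ) * z)) (by fun_prop)]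
  congr 2
  unfold RN
  apply RI_congr (by linarith [D.b_pos]) (by linarith [Real.pi_pos])
  intro μ hμ
  rw [D.replace (BN_mem D.b_pos hμ).1]

/-- the inner integral is continuous in `μ` -/
lemma Dat.inner_cont (D : Dat M P E L α β b c a u v X δ) (n : ℕ) (τ : ℝ) :
    ContinuousOn (fun μ => RI α β u v (fun z => Kf M P E L z * hf M P n τ z * (z - μ)⁻¹))
      (BN b a) := by
  apply RI_contOn D.hαβ.le D.huv.le (K := fun μ z => Kf M P E L z * hf M P n τ z * (z - μ)⁻¹)
  have h1 : ContinuousOn (fun z => Kf M P E L z * hf M P n τ z) (Bd α β u v) :=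
    D.K_cont.mul (((hf_diff D.hM D.hP D.hP0).continuousOn).mono fun z hz =>
        (D.box_re (Bd_sub D.hαβ.le D.huv.le hz)).2)
  apply ContinuousOn.mul
  · exact h1.comp continuousOn_snd (fun p hp => hp.2)
  · apply ContinuousOn.inv₀ (by fun_prop)
    rintro ⟨μ, z⟩ ⟨hμ, hz⟩
    exact sub_ne_zero.2 (D.ne_mu (D.box_re (Bd_sub D.hαβ.le D.huv.le hz)).1
      (BN_mem D.b_pos hμ).1)

lemma norm_two_pi_inv_le : ‖(2 * Real.pi * I : ℂ)⁻¹‖ ≤ 1 := by
  rw [norm_inv]
  apply inv_le_one_of_one_le₀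
  rw [norm_mul, norm_mul, norm_I, mul_one, Complex.norm_real, Real.norm_of_nonneg Real.pi_pos.le]
  have := Real.pi_gt_three
  simp
  linarith

lemma Dat.per (D : Dat M P E L α β b c a u v X δ) :
    2 * (b - b / 2) + 2 * (a + 4 * Real.pi - (a + 2 * Real.pi)) ≤ 14 := by
  have := Real.pi_lt_d2
  linarith [D.hbc, D.hc]

/-- the value of `-K` on the old box is close to one -/
lemma Dat.K_near (D : Dat M P E L α β b c a u v X δ) {μ : ℂ}
    (h1 : b / 2 ≤ μ.re) (h2 : μ.re ≤ b) (h3 : a + 2 * Real.pi ≤ μ.im)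
    (h4 : μ.im ≤ a + 4 * Real.pi) : ‖Kf M P E L μ + 1‖ ≤ 3 * δ := by
  have hpi := Real.pi_pos
  obtain ⟨k1, k2, k3⟩ := D.near μ h1 h2 h3 h4
  have hne := (D.band μ (by linarith [D.hβb, D.b_pos]) (by linarith [D.hbc]) (by linarith)
    (by linarith [D.hu, D.huv])).1
  have e : Kf M P E L μ + 1 = -(E μ - 1) + E μ * (M μ / Mn M P L μ) := by
    unfold Kf
    field_simp
    unfold Mn
    ring
  rw [e]
  refine (norm_add_le _ _).trans ?_
  rw [norm_neg, norm_mul, norm_div]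
  have : ‖M μ‖ / ‖Mn M P L μ‖ ≤ δ := by
    rw [div_le_iff₀ (norm_pos_iff.2 hne)]; exact k1
  have h5 : ‖E μ‖ * (‖M μ‖ / ‖Mn M P L μ‖) ≤ 2 * δ :=
    mul_le_mul k3 this (by positivity) (by norm_num)
  linarith

/-- **Closeness.** -/
lemma Dat.close (D : Dat M P E L α β b c a u v X δ) (hG : ContinuousOn G (BN b a)) {C : ℝ}
    (hC : ∀ μ ∈ BN b a, ‖G μ‖ ≤ C) {d : ℝ} (hd0 : 0 < d) (hd1 : d ≤ b / 4) (hd2 : d ≤ c - b)
    (hd3 : d ≤ 1) (τ : ℝ) :
    ‖(2 * Real.pi * I)⁻¹ * RI α β u v (fun z => Gn b a G M P E L z * cexp (τ * z)) -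
      gf b a G τ‖ ≤ C * (δ * (16 * (1 + (v - a)) / d + 20)) * 14 * Real.exp (c * max τ 0) := by
  have hpi := Real.pi_pos
  have hpi4 := Real.pi_lt_d2
  have hδ := D.hδ
  have hb := D.b_pos
  have hf0 := D.g_formula hG 0 τ
  simp only [Nat.cast_zero, zero_mul, zero_add] at hf0
  rw [hf0]
  unfold gf
  have e1 : RN b a (fun z => G z * cexp (τ * z)) = (2 * Real.pi * I)⁻¹ *
      RN b a (fun z => G z * (2 * Real.pi * I * cexp (τ * z))) := by
    have : (fun z => G z * (2 * Real.pi * I * cexp (τ * z))) =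
        fun z => (2 * Real.pi * I) * (G z * cexp (τ * z)) := by funext z; ring
    rw [this]
    unfold RN
    rw [RI_const_mul, inv_mul_cancel_left₀]
    simp [Real.pi_ne_zero]
  rw [e1, ← mul_sub, ← mul_sub]
  set J : ℂ → ℂ := fun μ => RI α β u v (fun z => Kf M P E L z * hf M P 0 τ z * (z - μ)⁻¹) with hJ
  have hJc : ContinuousOn J (BN b a) := D.inner_cont 0 τ
  have e2 : RN b a (fun μ => G μ * J μ) - RN b a (fun z => G z * (2 * Real.pi * I * cexp (τ * z))) =
      RN b a (fun μ => G μ * (J μ - 2 * Real.pi * I * cexp (τ * μ))) := by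
    have h1 : ContinuousOn (fun z => -1 * (G z * (2 * Real.pi * I * cexp (τ * z)))) (BN b a) :=
      continuousOn_const.mul (hG.mul (by fun_prop))
    have hGJ : ContinuousOn (fun μ => G μ * J μ) (BN b a) := hG.mul hJc
    have h2 := RI_add (by linarith : b / 2 ≤ b) (by linarith : a + 2 * Real.pi ≤ a + 4 * Real.pi)
      hGJ h1
    rw [RI_const_mul] at h2
    unfold RN
    rw [show ∀ x y : ℂ, x - y = x + -1 * y by intros; ring, ← h2]
    congr 1
    funext z
    ring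
  rw [e2]
  have hbd : ∀ μ ∈ BN b a, ‖G μ * (J μ - 2 * Real.pi * I * cexp (τ * μ))‖ ≤
      C * ((δ * (16 * (1 + (v - a)) / d) + 20 * δ) * Real.exp (c * max τ 0)) := by
    intro μ hμ
    obtain ⟨g1, g2, g3, g4⟩ := BN_mem hb hμ
    have k1 := D.core g1 g2 g3 g4 hd0 hd1 hd2 hd3 0 τ
    rw [pow_zero, one_mul] at k1
    have k2 := D.K_near g1 g2 g3 g4
    have hh : hf M P 0 τ μ = cexp (τ * μ) := by simp [hf]
    rw [hh] at k1
    have k3 : ‖cexp (τ * μ)‖ ≤ Real.exp (c * max τ 0) := by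
      rw [Complex.norm_exp]
      have : ((τ:ℂ) * μ).re = τ * μ.re := by simp
      rw [this]
      exact exp_le_max (by linarith) (by linarith [D.hbc])
    have k4 : J μ - 2 * Real.pi * I * cexp (τ * μ) =
        (J μ + 2 * Real.pi * I * (Kf M P E L μ * cexp (τ * μ))) -
          2 * Real.pi * I * ((Kf M P E L μ + 1) * cexp (τ * μ)) := by ring
    have k5 : ‖2 * Real.pi * I * ((Kf M P E L μ + 1) * cexp (τ * μ))‖ ≤
        20 * δ * Real.exp (c * max τ 0) := by
      rw [norm_mul, norm_mul, norm_mul, norm_mul, norm_I, mul_one, Complex.norm_real,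
        Real.norm_of_nonneg hpi.le]
      have n2 : ‖(2:ℂ)‖ = 2 := by simp
      rw [n2]
      have : ‖Kf M P E L μ + 1‖ * ‖cexp (τ * μ)‖ ≤ 3 * δ * Real.exp (c * max τ 0) :=
        mul_le_mul k2 k3 (norm_nonneg _) (by positivity)
      calc 2 * Real.pi * (‖Kf M P E L μ + 1‖ * ‖cexp (τ * μ)‖) ≤
            2 * Real.pi * (3 * δ * Real.exp (c * max τ 0)) :=
            mul_le_mul_of_nonneg_left this (by positivity)
        _ = (6 * Real.pi) * (δ * Real.exp (c * max τ 0)) := by ring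
        _ ≤ 20 * (δ * Real.exp (c * max τ 0)) :=
            mul_le_mul_of_nonneg_right (by linarith) (by positivity)
        _ = _ := by ring
    rw [norm_mul]
    apply mul_le_mul (hC μ hμ) _ (norm_nonneg _) ((norm_nonneg _).trans (hC μ hμ))
    rw [k4]
    refine (norm_sub_le _ _).trans ?_
    calc _ ≤ δ * (16 * (1 + (v - a)) / d) * Real.exp (c * max τ 0) +
          20 * δ * Real.exp (c * max τ 0) := add_le_add k1 k5
      _ = _ := by ring
  have hr := RI_norm_le (by linarith : b / 2 ≤ b) (by linarith : a + 2 * Real.pi ≤ a + 4 * Real.pi) hbd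
  rw [norm_mul, norm_mul]
  have hn := norm_two_pi_inv_le
  have hC0 : 0 ≤ C * ((δ * (16 * (1 + (v - a)) / d) + 20 * δ) * Real.exp (c * max τ 0)) := by
    have hmem : (⟨b, a + 2 * Real.pi⟩ : ℂ) ∈ BN b a :=
      Or.inl ⟨⟨by simp; linarith, le_rfl⟩, Or.inl rfl⟩
    exact (norm_nonneg _).trans (hbd _ hmem)
  calc _ ≤ 1 * (1 * (C * ((δ * (16 * (1 + (v - a)) / d) + 20 * δ) * Real.exp (c * max τ 0)) *
        (2 * (b - b / 2) + 2 * (a + 4 * Real.pi - (a + 2 * Real.pi))))) := by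
        apply mul_le_mul hn _ (by positivity) (by norm_num)
        apply mul_le_mul hn _ (by positivity) (by norm_num)
        exact hr
    _ ≤ 1 * (1 * (C * ((δ * (16 * (1 + (v - a)) / d) + 20 * δ) * Real.exp (c * max τ 0)) * 14)) := by
        rw [one_mul, one_mul, one_mul, one_mul]
        exact mul_le_mul_of_nonneg_left D.per hC0
    _ = _ := by ring

/-- **Far bound.** -/
lemma Dat.far (D : Dat M P E L α β b c a u v X δ) (hG : ContinuousOn G (BN b a)) {C : ℝ}
    (hC : ∀ μ ∈ BN b a, ‖G μ‖ ≤ C)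
    (hex : ∀ Ψ : ℂ → ℂ, DifferentiableOn ℂ Ψ (CN b a) → RN b a (fun μ => G μ * (M μ * Ψ μ)) = 0)
    {d : ℝ} (hd0 : 0 < d) (hd1 : d ≤ b / 4) (hd2 : d ≤ c - b)
    (hd3 : d ≤ 1) (n : ℕ) (hn : 1 ≤ n) (τ : ℝ) :
    ‖(2 * Real.pi * I)⁻¹ * RI α β u v (fun z => Gn b a G M P E L z *
      cexp ((n * L + τ : ℝ) * z))‖ ≤
      C * (δ * (16 * (1 + (v - a)) / d + 20)) * 14 * X ^ n * Real.exp (c * max τ 0) := by
  have hpi := Real.pi_pos
  have hδ := D.hδ
  have hX := D.hX
  have hb := D.b_pos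
  rw [D.g_formula hG n τ]
  set J : ℂ → ℂ := fun μ => RI α β u v (fun z => Kf M P E L z * hf M P n τ z * (z - μ)⁻¹) with hJ
  have hJc : ContinuousOn J (BN b a) := D.inner_cont n τ
  have hCN : ∀ z ∈ CN b a, z.re < 1 ∧ Mn M P L z ≠ 0 := by
    rintro z ⟨hz1, hz2⟩
    have a1 : b / 2 ≤ z.re := hz1.1
    have a2 : z.re ≤ b := hz1.2
    have a3 : a + 2 * Real.pi ≤ z.im := hz2.1
    have a4 : z.im ≤ a + 4 * Real.pi := hz2.2
    refine ⟨by linarith [D.hbc, D.hc], ?_⟩
    exact (D.band z (by linarith [D.hβb]) (by linarith [D.hbc]) (by linarith)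
      (by linarith [D.hu, D.huv])).1
  have hzero : RN b a (fun μ => G μ * (Kf M P E L μ * hf M P n τ μ)) = 0 := by
    have hd : DifferentiableOn ℂ (fun μ => Kf M P E L μ * (-(P μ)⁻¹ *
        ((-(M μ / P μ)) ^ (n - 1) * cexp (τ * μ)))) (CN b a) := by
      have d1 : DifferentiableOn ℂ P (CN b a) := D.hP.mono fun z hz => (hCN z hz).1
      have d2 : DifferentiableOn ℂ M (CN b a) := D.hM.mono fun z hz => (hCN z hz).1
      have hp0 : ∀ z ∈ CN b a, P z ≠ 0 := fun z hz => D.hP0 z (hCN z hz).1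
      refine ((Kf_diff D.hM D.hP D.hE).mono fun z hz => hCN z hz).mul ?_
      refine (d1.inv hp0).neg.mul ((((d2.div d1 hp0).neg).pow _).mul ?_)
      exact (by fun_prop : Differentiable ℂ fun z : ℂ => cexp (τ * z)).differentiableOn
    have := hex _ hd
    rw [← this]
    unfold RN
    apply RI_congr (by linarith) (by linarith)
    intro μ hμ
    have hμ2 := BN_mem hb hμ
    have hp : P μ ≠ 0 := D.hP0 μ (by linarith [D.hbc, D.hc])
    obtain ⟨m, rfl⟩ : ∃ m, n = m + 1 := ⟨n - 1, by omega⟩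
    simp only [hf, Nat.add_sub_cancel, pow_succ]
    field_simp
  have e2 : RN b a (fun μ => G μ * J μ) =
      RN b a (fun μ => G μ * (J μ + 2 * Real.pi * I * (Kf M P E L μ * hf M P n τ μ))) := by
    have hc1 : ContinuousOn (fun μ => G μ * (Kf M P E L μ * hf M P n τ μ)) (BN b a) := by
      have hsub : BN b a ⊆ CN b a := Bd_sub (by linarith) (by linarith)
      refine hG.mul (ContinuousOn.mul ?_ ?_)
      · exact (Kf_diff D.hM D.hP D.hE).continuousOn.mono fun z hz => hCN z (hsub hz)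
      · exact (hf_diff D.hM D.hP D.hP0).continuousOn.mono fun z hz => (hCN z (hsub hz)).1
    have hGJ : ContinuousOn (fun μ => G μ * J μ) (BN b a) := hG.mul hJc
    have hc2 : ContinuousOn (fun μ => (2 * Real.pi * I) *
        (G μ * (Kf M P E L μ * hf M P n τ μ))) (BN b a) := continuousOn_const.mul hc1
    have h2 := RI_add (by linarith : b / 2 ≤ b) (by linarith : a + 2 * Real.pi ≤ a + 4 * Real.pi)
      hGJ hc2
    rw [RI_const_mul] at h2
    unfold RN at hzero
    rw [hzero, mul_zero, add_zero] at h2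
    unfold RN
    rw [← h2]
    congr 1
    funext z
    ring
  rw [e2]
  have hQ0 : 0 ≤ X ^ n * Real.exp (c * max τ 0) := by positivity
  have hbd : ∀ μ ∈ BN b a, ‖G μ * (J μ + 2 * Real.pi * I * (Kf M P E L μ * hf M P n τ μ))‖ ≤
      C * ((δ * (16 * (1 + (v - a)) / d) + 20 * δ) * (X ^ n * Real.exp (c * max τ 0))) := by
    intro μ hμ
    obtain ⟨g1, g2, g3, g4⟩ := BN_mem hb hμ
    have k1 := D.core g1 g2 g3 g4 hd0 hd1 hd2 hd3 n τ
    rw [norm_mul]
    apply mul_le_mul (hC μ hμ) _ (norm_nonneg _) ((norm_nonneg _).trans (hC μ hμ))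
    refine k1.trans ?_
    rw [add_mul]
    have : 0 ≤ 20 * δ * (X ^ n * Real.exp (c * max τ 0)) := by positivity
    linarith
  have hr := RI_norm_le (by linarith : b / 2 ≤ b) (by linarith : a + 2 * Real.pi ≤ a + 4 * Real.pi) hbd
  rw [norm_mul, norm_mul]
  have hn := norm_two_pi_inv_le
  have hC0 : 0 ≤ C * ((δ * (16 * (1 + (v - a)) / d) + 20 * δ) * (X ^ n * Real.exp (c * max τ 0))) := by
    have hmem : (⟨b, a + 2 * Real.pi⟩ : ℂ) ∈ BN b a :=
      Or.inl ⟨⟨by simp; linarith, le_rfl⟩, Or.inl rfl⟩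
    exact (norm_nonneg _).trans (hbd _ hmem)
  calc _ ≤ 1 * (1 * (C * ((δ * (16 * (1 + (v - a)) / d) + 20 * δ) *
        (X ^ n * Real.exp (c * max τ 0))) *
        (2 * (b - b / 2) + 2 * (a + 4 * Real.pi - (a + 2 * Real.pi))))) := by
        apply mul_le_mul hn _ (by positivity) (by norm_num)
        apply mul_le_mul hn _ (by positivity) (by norm_num)
        exact hr
    _ ≤ 1 * (1 * (C * ((δ * (16 * (1 + (v - a)) / d) + 20 * δ) *
        (X ^ n * Real.exp (c * max τ 0))) * 14)) := by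
        rw [one_mul, one_mul, one_mul, one_mul]
        exact mul_le_mul_of_nonneg_left D.per hC0
    _ = _ := by ring

end

end Pool.Agent.W2helper26.TR
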