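import Pool.Agent.W2helper26.TR.Stm
import Pool.Agent.W2helper26.TR.Step

/-! States of the recursion and the exact Props of the remaining pieces. -/

set_option autoImplicit false

open Complex Filter Topology Set MeasureTheory

namespace Pool.Agent.W2helper26.TR

/-- `P(z) = q (1 - z)/(X - z)`. -/
noncomputable def Pf (q X : ℝ) (z : ℂ) : ℂ := q * (1 - z) / (X - z)

/-- `q_k = 2^{-(k+2)}`. -/
noncomputable def qk (k : ℕ) : ℝ := (1 / 2) ^ (k + 2)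

/-- `a_k = 2π 2^{k+8}`. -/
noncomputable def ak (k : ℕ) : ℝ := 2 * Real.pi * 2 ^ (k + 8)

/-- `M_k = 1 + ∑_{j<k} P_j e^{L_j z}`. -/
noncomputable def Mk (L : ℕ → ℕ) (X : ℕ → ℝ) (k : ℕ) (z : ℂ) : ℂ :=
  1 + ∑ j ∈ Finset.range k, Pf (qk j) (X j) z * cexp (L j * z)

/-- A state of the recursion; `ℓ` and `X` are the last `L` and the last `X`. -/
structure Sta where
  M : ℂ → ℂ
  G : ℂ → ℂ
  b : ℝ
  c : ℝ
  ℓ : ℕ
  X : ℝ

/-- The invariant at stage `k`. -/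
structure Inv (k : ℕ) (s : Sta) : Prop where
  hb : 0 < s.b
  hbc : s.b < s.c
  hc : s.c ≤ 1 / 2
  hM : DifferentiableOn ℂ s.M {z | z.re < 1}
  m2 : ∀ z : ℂ, 0 ≤ z.re → z.re < 1 →
    ‖s.M z - 1‖ ≤ (1 / 2 - (1 / 2) ^ (k + 1)) * Real.exp (s.ℓ * z.re)
  m3 : ∀ z : ℂ, 0 ≤ z.re → z.re < 1 → (∃ m : ℕ, z.im = 2 * Real.pi * m) →
    1 ≤ (s.M z).re ∧ (s.M z).im ≤ 0
  m4 : ∀ z : ℂ, 0 ≤ z.re → z.re ≤ s.c → ‖s.M z‖ ≤ 8 / 5 + qk k / 8 * ‖1 - z‖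
  hG : ContinuousOn s.G (BN s.b (ak k))
  hex : 1 ≤ k → ∀ Ψ : ℂ → ℂ, DifferentiableOn ℂ Ψ (CN s.b (ak k)) →
    RN s.b (ak k) (fun μ => s.G μ * (s.M μ * Ψ μ)) = 0

/-- The relation between stage `k` (state `s`) and stage `k+1` (state `t`). -/
structure Rel (η : ℝ) (k : ℕ) (s t : Sta) : Prop where
  hL : 1 ≤ t.ℓ
  hX : 64 ≤ t.X
  hM : t.M = fun z => s.M z + Pf (qk k) t.X z * cexp (t.ℓ * z)
  hc : t.c ≤ s.c
  hLc : t.ℓ * t.c ≤ Real.log t.X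
  hlog : Real.log t.X / t.ℓ ≤ (1 / 2) ^ k
  close : ∀ τ : ℝ, ‖gf t.b (ak (k + 1)) t.G τ - gf s.b (ak k) s.G τ‖ ≤
    η * Real.exp (s.c * max τ 0)
  far : 1 ≤ k → ∀ n : ℕ, 1 ≤ n → ∀ τ : ℝ,
    ‖gf t.b (ak (k + 1)) t.G (n * t.ℓ + τ)‖ ≤ η * t.X ^ n * Real.exp (s.c * max τ 0)

/-- **Piece S1** (one step of the recursion; helper26). -/
def StepStm : Prop :=
  ∀ (k : ℕ) (s : Sta) (η : ℝ), 0 < η → Inv k s → ∃ t : Sta, Inv (k + 1) t ∧ Rel η k s t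

/-- **Piece O** (orthogonality of stage `k`).

Proof: `∫_0^∞ f_k(t) e^{λt} dt = M_k(λ)/(1-λ)` for `Re λ ≤ b < 1/2`
(`∫_L^∞ q e^{-X(t-L)} e^{λt} dt = q e^{Lλ}/(X-λ)`), so by Fubini (`f_k` is integrable against `e^{bt}`, `G`
is continuous, hence bounded, on the compact `BN b a`; see `RI_eq_sum`, `RI_swap` in `Rect.lean`)
the integral is `(2πi)⁻¹ RN (G M_k Ψ)` with `Ψ z = e^{τz}/(1-z)`, which is `0` by the hypothesis. -/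
def OrthStm : Prop :=
  ∀ (L : ℕ → ℕ) (X : ℕ → ℝ) (k : ℕ) (b a : ℝ) (G : ℂ → ℂ), (∀ j, 64 ≤ X j) → 0 < b → b < 1 / 2 →
    ContinuousOn G (BN b a) →
    (∀ Ψ : ℂ → ℂ, DifferentiableOn ℂ Ψ (CN b a) →
      RN b a (fun μ => G μ * (Mk L X k μ * Ψ μ)) = 0) →
    ∀ τ : ℝ, 0 < τ → ∫ t in Set.Ioi (0:ℝ), (fpart L X k t : ℂ) * gf b a G (t + τ) = 0

/-- **Piece A** (assembly).

Initial state: `M = 1`, `G μ = (μ - ξ)⁻¹` with `ξ` an interior point of `CN b a_0`, `b = 1/8`, `c = 1/4`,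
`ℓ = 0`, `X = 64`.  By the Cauchy formula (`RI_cauchy` / `RI_cauchyOn` in `Rect.lean`)
`gf b a_0 G τ = e^{τ ξ}`, so `‖g_0 τ‖ ≥ 1` for `τ ≥ 0`.  Dependent choice with `StepStm` and
`η k = (1/8) (1/2)^k` gives states `s k`; put `L k = (s (k+1)).ℓ`, `X k = (s (k+1)).X`, `c k = (s k).c`,
`g k = gf (s k).b (ak k) (s k).G`.  Then `(s k).M = Mk L X k`.  `‖g 1 τ‖ ≤ C e^{c_1 max τ 0}` by
`RI_norm_le` and compactness; continuity of `g k` by `param_contOn` / `RI_contOn`.  `L j * c k ≤ log (X j)`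
for `j < k` since `c` is decreasing and `Rel.hLc`. -/
def AssStm : Prop := StepStm → OrthStm → OutStm

end Pool.Agent.W2helper26.TR
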